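import Pool.Agent.TH590.FF.Meas

/-!
# The arcsine law
-/

set_option autoImplicit false
set_option linter.unusedVariables false

open Finset Filter MeasureTheory
open scoped Topology

namespace Pool.Agent.TH590.FF

/-- the map `x ↦ sin² (π x / 2)` -/
noncomputable def sn (x : ℝ) : ℝ := Real.sin (Real.pi / 2 * x) ^ 2

lemma sn_cont : Continuous sn := by
  unfold sn
  fun_prop

lemma sn_mem (x : ℝ) : 0 ≤ sn x ∧ sn x ≤ 1 :=
  ⟨sq_nonneg _, Real.sin_sq_le_one _⟩

/-- the arcsine law on `[0, 1]` -/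
noncomputable def arcs : Measure ℝ := (volume.restrict (Set.Ioc (0 : ℝ) 1)).map sn

instance : IsProbabilityMeasure (volume.restrict (Set.Ioc (0 : ℝ) 1)) :=
  ⟨by simp⟩

instance arcs_prob : IsProbabilityMeasure arcs :=
  Measure.isProbabilityMeasure_map sn_cont.measurable.aemeasurable

lemma arcs_supp : ∀ᵐ t ∂arcs, 0 ≤ t ∧ t ≤ 1 := by
  unfold arcs
  rw [ae_map_iff sn_cont.measurable.aemeasurable measurableSet_Icc]
  exact Eventually.of_forall fun x => sn_mem x

lemma int_arcs {f : ℝ → ℝ} (hf : Measurable f) : ∫ t, f t ∂arcs = ∫ x in (0 : ℝ)..1, f (sn x) := by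
  unfold arcs
  rw [integral_map sn_cont.measurable.aemeasurable hf.aestronglyMeasurable,
    intervalIntegral.integral_of_le zero_le_one]

lemma arcs_sqrt : ∫ t, √(1 - t) ∂arcs = 2 / Real.pi := by
  rw [int_arcs (by fun_prop)]
  have hpi := Real.pi_pos
  have e : ∫ x in (0 : ℝ)..1, √(1 - sn x) = ∫ x in (0 : ℝ)..1, Real.cos (Real.pi / 2 * x) := by
    apply intervalIntegral.integral_congr
    intro x hx
    rw [Set.uIcc_of_le zero_le_one] at hx
    show √(1 - sn x) = Real.cos (Real.pi / 2 * x)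
    unfold sn
    have h1 : 1 - Real.sin (Real.pi / 2 * x) ^ 2 = Real.cos (Real.pi / 2 * x) ^ 2 := by
      rw [← Real.sin_sq_add_cos_sq (Real.pi / 2 * x)]; ring
    rw [h1, Real.sqrt_sq]
    apply Real.cos_nonneg_of_mem_Icc
    constructor
    · nlinarith [hx.1]
    · nlinarith [hx.2]
  rw [e, intervalIntegral.integral_comp_mul_left (fun y => Real.cos y) (by positivity :
    Real.pi / 2 ≠ 0), integral_cos]
  simp

lemma arcs_kern {s : ℝ} (hs0 : 0 ≤ s) (hs1 : s < 1) :
    ∫ t, 1 / (1 - t * s ^ 2) ∂arcs = 1 / √(1 - s ^ 2) := by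
  have hpi := Real.pi_pos
  rw [int_arcs (by fun_prop)]
  have hr2 : 0 < 1 - s ^ 2 := by nlinarith
  set r := √(1 - s ^ 2) with hr
  have hr0 : 0 < r := Real.sqrt_pos.mpr hr2
  have hrr : r ^ 2 = 1 - s ^ 2 := Real.sq_sqrt hr2.le
  have hden : ∀ x : ℝ, 0 < 1 - sn x * s ^ 2 := by
    intro x
    have h1 := sn_mem x
    have h2 : 0 ≤ s ^ 2 := sq_nonneg s
    nlinarith
  set f : ℝ → ℝ := fun x => 2 / Real.pi / r * Real.arctan (r * Real.tan (Real.pi / 2 * x)) with hf
  have hderiv : ∀ x ∈ Set.Ioo (0 : ℝ) 1, HasDerivAt f (1 / (1 - sn x * s ^ 2)) x := by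
    intro x hx
    have hcos : 0 < Real.cos (Real.pi / 2 * x) := by
      apply Real.cos_pos_of_mem_Ioo
      constructor
      · nlinarith [hx.1]
      · nlinarith [hx.2]
    have d0 : HasDerivAt (fun x : ℝ => Real.pi / 2 * x) (Real.pi / 2) x := by
      simpa using (hasDerivAt_id x).const_mul (Real.pi / 2)
    have d1 : HasDerivAt (fun x : ℝ => Real.tan (Real.pi / 2 * x))
        (1 / Real.cos (Real.pi / 2 * x) ^ 2 * (Real.pi / 2)) x :=
      (Real.hasDerivAt_tan hcos.ne').comp x d0
    have d2 := ((d1.const_mul r).arctan).const_mul (2 / Real.pi / r)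
    refine d2.congr_deriv ?_
    have h1 : sn x = 1 - Real.cos (Real.pi / 2 * x) ^ 2 := by
      unfold sn
      rw [← Real.sin_sq_add_cos_sq (Real.pi / 2 * x)]; ring
    have h2 : Real.tan (Real.pi / 2 * x) ^ 2 * Real.cos (Real.pi / 2 * x) ^ 2
        = 1 - Real.cos (Real.pi / 2 * x) ^ 2 := by
      rw [Real.tan_eq_sin_div_cos, div_pow, div_mul_cancel₀ _ (by positivity)]
      rw [← Real.sin_sq_add_cos_sq (Real.pi / 2 * x)]; ring
    have h3 : (1 + (r * Real.tan (Real.pi / 2 * x)) ^ 2) * Real.cos (Real.pi / 2 * x) ^ 2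
        = 1 - sn x * s ^ 2 := by
      rw [h1]
      have : s ^ 2 = 1 - r ^ 2 := by rw [hrr]; ring
      rw [this]
      linear_combination r ^ 2 * h2
    rw [← h3]
    field_simp
  have hint : IntervalIntegrable (fun x => 1 / (1 - sn x * s ^ 2)) volume 0 1 := by
    apply Continuous.intervalIntegrable
    have := sn_cont
    exact continuous_const.div (continuous_const.sub (sn_cont.mul continuous_const))
      fun x => (hden x).ne'
  have h0 : Tendsto f (𝓝[>] 0) (𝓝 0) := by
    have hc : ContinuousAt f 0 := by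
      have d0 : ContinuousAt (fun x : ℝ => Real.tan (Real.pi / 2 * x)) 0 := by
        refine ContinuousAt.comp (g := Real.tan) ?_ (by fun_prop)
        apply Real.continuousAt_tan.mpr
        simp
      have d1 : ContinuousAt (fun x : ℝ => Real.arctan (r * Real.tan (Real.pi / 2 * x))) 0 :=
        Real.continuous_arctan.continuousAt.comp (d0.const_mul r)
      exact d1.const_mul _
    have h := hc.tendsto
    have e : f 0 = 0 := by simp [hf]
    rw [e] at h
    exact h.mono_left nhdsWithin_le_nhds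
  have h1 : Tendsto f (𝓝[<] 1) (𝓝 (1 / r)) := by
    have t1 : Tendsto (fun x : ℝ => Real.pi / 2 * x) (𝓝[<] 1) (𝓝[<] (Real.pi / 2)) := by
      apply tendsto_nhdsWithin_of_tendsto_nhds_of_eventually_within
      · have : Tendsto (fun x : ℝ => Real.pi / 2 * x) (𝓝 1) (𝓝 (Real.pi / 2 * 1)) :=
          (continuous_const.mul continuous_id).tendsto 1
        rw [mul_one] at this
        exact this.mono_left nhdsWithin_le_nhds
      · filter_upwards [self_mem_nhdsWithin] with x hx
        show Real.pi / 2 * x < Real.pi / 2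
        have : x < 1 := hx
        nlinarith
    have t2 : Tendsto (fun x : ℝ => r * Real.tan (Real.pi / 2 * x)) (𝓝[<] 1) atTop :=
      (Real.tendsto_tan_pi_div_two.comp t1).const_mul_atTop hr0
    have t3 : Tendsto (fun x : ℝ => Real.arctan (r * Real.tan (Real.pi / 2 * x))) (𝓝[<] 1)
        (𝓝 (Real.pi / 2)) :=
      (Real.tendsto_arctan_atTop.mono_right nhdsWithin_le_nhds).comp t2
    have t4 := t3.const_mul (2 / Real.pi / r)
    have e : 2 / Real.pi / r * (Real.pi / 2) = 1 / r := by field_simp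
    rw [e] at t4
    exact t4
  rw [intervalIntegral.integral_eq_sub_of_hasDerivAt_of_tendsto one_pos hderiv hint h0 h1, sub_zero]

/-- the value of the functional at the arcsine law -/
lemma JM_arcs : JM arcs = Real.log 2 := by
  unfold JM
  have e : ∫ s in (0 : ℝ)..1, Real.log (∫ t, 1 / (1 - t * s ^ 2) ∂arcs) / s ^ 2
      = ∫ s in (0 : ℝ)..1, 1 / 2 * (-Real.log (1 - (1 : ℝ) ^ 2 * s ^ 2) / s ^ 2) := by
    apply intervalIntegral.integral_congr_ae
    have hne : ∀ᵐ s : ℝ, s ≠ 1 := by
      rw [ae_iff]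
      simp
    filter_upwards [hne] with s hs1 hs
    rw [Set.uIoc_of_le zero_le_one] at hs
    have hs2 : s < 1 := lt_of_le_of_ne hs.2 hs1
    rw [arcs_kern hs.1.le hs2, one_div, Real.log_inv, Real.log_sqrt (by nlinarith [hs.1]), one_pow,
      one_mul]
    ring
  rw [e, intervalIntegral.integral_const_mul, log_neg_val one_pos le_rfl]
  unfold Nu
  norm_num
  ring

end Pool.Agent.TH590.FF
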