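import Pool.Agent.TH590.FF.Strict
import Pool.Agent.TH590.FF.Arcsine

/-!
# The functional at two-point distributions; comparison with the second linear programming bound
-/

set_option autoImplicit false
set_option linter.unusedVariables false

open Finset Filter MeasureTheory
open scoped Topology

namespace Pool.Agent.TH590.FF

/-! ### Three atoms -/

/-- the distribution with masses `c0, c1, c2` at `0, t, 1` -/
noncomputable def m3 (c0 c1 c2 t : ℝ) : Measure ℝ :=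
  ENNReal.ofReal c0 • Measure.dirac 0 + ENNReal.ofReal c1 • Measure.dirac t
    + ENNReal.ofReal c2 • Measure.dirac 1

section m3

variable {c0 c1 c2 t : ℝ}

instance m3_fin : IsFiniteMeasure (m3 c0 c1 c2 t) := by
  unfold m3
  have h : ∀ (c x : ℝ), IsFiniteMeasure (ENNReal.ofReal c • Measure.dirac x) := fun c x =>
    ⟨by simp⟩
  have := h c0 0
  have := h c1 t
  have := h c2 1
  infer_instance

lemma m3_prob (h0 : 0 ≤ c0) (h1 : 0 ≤ c1) (h2 : 0 ≤ c2) (hs : c0 + c1 + c2 = 1) :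
    IsProbabilityMeasure (m3 c0 c1 c2 t) := by
  constructor
  unfold m3
  simp only [Measure.add_apply, Measure.smul_apply, measure_univ, smul_eq_mul, mul_one]
  rw [← ENNReal.ofReal_add h0 h1, ← ENNReal.ofReal_add (by linarith) h2, hs, ENNReal.ofReal_one]

lemma m3_supp (ht0 : 0 ≤ t) (ht1 : t ≤ 1) : ∀ᵐ x ∂(m3 c0 c1 c2 t), 0 ≤ x ∧ x ≤ 1 := by
  unfold m3
  rw [ae_add_measure_iff, ae_add_measure_iff]
  have key : ∀ (c x : ℝ), 0 ≤ x → x ≤ 1 →
      ∀ᵐ y ∂(ENNReal.ofReal c • Measure.dirac x), 0 ≤ y ∧ y ≤ 1 := by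
    intro c x h0 h1
    apply Measure.ae_smul_measure
    rw [ae_dirac_iff measurableSet_Icc]
    exact ⟨h0, h1⟩
  exact ⟨⟨key _ _ le_rfl zero_le_one, key _ _ ht0 ht1⟩, key _ _ zero_le_one le_rfl⟩

lemma int_m3 (h0 : 0 ≤ c0) (h1 : 0 ≤ c1) (h2 : 0 ≤ c2) {f : ℝ → ℝ} (hf : Measurable f) :
    ∫ x, f x ∂(m3 c0 c1 c2 t) = c0 * f 0 + c1 * f t + c2 * f 1 := by
  have hi : ∀ (c x : ℝ), Integrable f (ENNReal.ofReal c • Measure.dirac x) := by
    intro c x
    exact (integrable_dirac' hf.stronglyMeasurable (by simp)).smul_measure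
      ENNReal.ofReal_ne_top
  unfold m3
  rw [integral_add_measure ((hi _ _).add_measure (hi _ _)) (hi _ _),
    integral_add_measure (hi _ _) (hi _ _), integral_smul_measure, integral_smul_measure,
    integral_smul_measure, integral_dirac' _ _ hf.stronglyMeasurable,
    integral_dirac' _ _ hf.stronglyMeasurable, integral_dirac' _ _ hf.stronglyMeasurable,
    ENNReal.toReal_ofReal h0, ENNReal.toReal_ofReal h1, ENNReal.toReal_ofReal h2]
  simp only [smul_eq_mul]

end m3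

/-- the value of the functional after the perturbation -/
lemma JM_m3 {m u w0 w1 a : ℝ} (hw0 : 0 ≤ w0) (hw1 : 0 ≤ w1) (hm0 : 0 < m) (hm1 : m < 1)
    (ha0 : 0 < a) (ha1 : a < 1) :
    JM (m3 ((1 - a) * w0 + m * a) ((1 - a) * w1) ((1 - m) * a) (1 - u ^ 2))
      = ∫ s in (0 : ℝ)..1, Real.log (L3 w0 w1 u m a s) / s ^ 2 := by
  unfold JM
  apply intervalIntegral.integral_congr
  intro s _
  have h1 : 0 ≤ 1 - a := by linarith
  have h2 : 0 ≤ (1 - a) * w0 + m * a := by positivity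
  have h3 : 0 ≤ (1 - a) * w1 := mul_nonneg h1 hw1
  have h4 : 0 ≤ (1 - m) * a := mul_nonneg (by linarith) ha0.le
  show Real.log (∫ t, 1 / (1 - t * s ^ 2) ∂_) / s ^ 2 = Real.log (L3 w0 w1 u m a s) / s ^ 2
  rw [int_m3 h2 h3 h4 (by fun_prop)]
  congr 2
  unfold L3 L2
  simp only [zero_mul, sub_zero, div_one, mul_one, one_mul]
  ring

/-- the value of the functional at a two-point distribution -/
lemma J_two {w0 w1 u : ℝ} (hu0 : 0 < u) (hu1 : u < 1) (hw0 : 0 ≤ w0) (hw1 : 0 ≤ w1)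
    (hsum : w0 + w1 = 1) :
    1 / 2 * ∫ s in (0 : ℝ)..1, Real.log (L2 w0 w1 u s) / s ^ 2
      = en (√(w0 * (1 - u ^ 2))) - en (√(1 - u ^ 2)) := by
  have hu2 : 0 < u ^ 2 := by positivity
  have hu21 : u ^ 2 < 1 := by nlinarith
  have ht0 : 0 ≤ 1 - u ^ 2 := by linarith
  have ht1 : 1 - u ^ 2 ≤ 1 := by linarith
  have hw01 : w0 ≤ 1 := by linarith
  have hwt0 : 0 ≤ w0 * (1 - u ^ 2) := mul_nonneg hw0 ht0
  have hwt1 : w0 * (1 - u ^ 2) ≤ 1 := by nlinarith
  rw [en_int hwt0 hwt1, en_int ht0 ht1]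
  have e : ∫ s in (0 : ℝ)..1, Real.log (L2 w0 w1 u s) / s ^ 2
      = (∫ s in (0 : ℝ)..1, Real.log (1 - w0 * (1 - u ^ 2) * s ^ 2) / s ^ 2)
        - ∫ s in (0 : ℝ)..1, Real.log (1 - (1 - u ^ 2) * s ^ 2) / s ^ 2 := by
    rw [← intervalIntegral.integral_sub (int_log hwt0 hwt1) (int_log ht0 ht1)]
    apply intervalIntegral.integral_congr
    intro s hs
    rw [Set.uIcc_of_le zero_le_one] at hs
    have hs2 : s ^ 2 ≤ 1 := by nlinarith [hs.1, hs.2]
    have hs3 : 0 ≤ s ^ 2 := sq_nonneg s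
    have hd : 0 < 1 - (1 - u ^ 2) * s ^ 2 := by nlinarith
    have hd2 : 0 < 1 - w0 * (1 - u ^ 2) * s ^ 2 := by
      have : w0 * ((1 - u ^ 2) * s ^ 2) ≤ 1 * ((1 - u ^ 2) * s ^ 2) :=
        mul_le_mul_of_nonneg_right hw01 (mul_nonneg ht0 hs3)
      nlinarith
    show Real.log (L2 w0 w1 u s) / s ^ 2 = Real.log (1 - w0 * (1 - u ^ 2) * s ^ 2) / s ^ 2
      - Real.log (1 - (1 - u ^ 2) * s ^ 2) / s ^ 2
    rw [← sub_div, ← Real.log_div hd2.ne' hd.ne']
    congr 2
    unfold L2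
    rw [eq_div_iff hd.ne', add_mul, div_mul_cancel₀ _ hd.ne']
    have : w1 = 1 - w0 := by linarith
    rw [this]
    ring
  rw [e]
  ring

/-! ### The bracket -/

/-- `k(y) = en √(1 - y)` (this is `log 2 * h y`) -/
noncomputable def kk (y : ℝ) : ℝ := en (√(1 - y))

lemma en_cont : Continuous en := by
  unfold en
  exact (Real.continuous_negMulLog.comp (by fun_prop)).add
    (Real.continuous_negMulLog.comp (by fun_prop))

lemma kk_cont : Continuous kk := by
  unfold kk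
  exact en_cont.comp (Real.continuous_sqrt.comp (by fun_prop))

lemma kk_zero : kk 0 = 0 := by
  unfold kk en
  simp

/-- `log 2` times the bracket in the definition of `B` -/
noncomputable def br (δ u : ℝ) : ℝ := Real.log 2 + kk (u ^ 2) - kk (u ^ 2 + 2 * δ * u + 2 * δ)

lemma br_cont (δ : ℝ) : Continuous (br δ) := by
  unfold br
  exact (continuous_const.add (kk_cont.comp (by fun_prop))).sub (kk_cont.comp (by fun_prop))

lemma negMulLog_le_one_sub {x : ℝ} (hx : 0 < x) : Real.negMulLog x ≤ 1 - x := by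
  have h := Real.one_sub_inv_le_log_of_pos hx
  unfold Real.negMulLog
  have h2 := mul_le_mul_of_nonneg_left h hx.le
  rw [mul_sub, mul_one, mul_inv_cancel₀ hx.ne'] at h2
  linarith

lemma kk_small {u : ℝ} (h0 : 0 < u) (h1 : u < 1) : kk (u ^ 2) ≤ u ^ 2 / 2 + 4 * (u * √u) := by
  have hu2 : 0 < u ^ 2 := by positivity
  have hu21 : u ^ 2 < 1 := by nlinarith
  set m := √(1 - u ^ 2) with hm
  have hm0 : 0 < m := Real.sqrt_pos.mpr (by linarith)
  have hm2 : m ^ 2 = 1 - u ^ 2 := Real.sq_sqrt (by linarith)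
  have hm1 : m < 1 := by nlinarith
  set y := (1 - m) / 2 with hy
  have hy0 : 0 < y := by rw [hy]; linarith
  have hy1 : y ≤ u ^ 2 / 2 := by
    rw [hy]
    have : 1 - m ≤ (1 - m) * (1 + m) := by nlinarith
    nlinarith
  have e1 : Real.negMulLog ((1 + m) / 2) ≤ u ^ 2 / 2 := by
    have := negMulLog_le_one_sub (x := (1 + m) / 2) (by linarith)
    have e : 1 - (1 + m) / 2 = y := by rw [hy]; ring
    linarith
  have e2 : Real.negMulLog y ≤ 4 * (u * √u) := by
    set q := √(√y) with hq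
    have hsy : 0 < √y := Real.sqrt_pos.mpr hy0
    have hq0 : 0 < q := Real.sqrt_pos.mpr hsy
    have hq2 : q ^ 2 = √y := Real.sq_sqrt hsy.le
    have hq4 : q ^ 4 = y := by
      calc q ^ 4 = (q ^ 2) ^ 2 := by ring
        _ = y := by rw [hq2, Real.sq_sqrt hy0.le]
    have hsu : 0 < √u := Real.sqrt_pos.mpr h0
    have hqu : q ≤ √u := by
      apply Real.sqrt_le_sqrt
      rw [Real.sqrt_le_left h0.le]
      linarith
    have hsu2 : √u ^ 2 = u := Real.sq_sqrt h0.le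
    have h3 : -Real.log q ≤ 1 / q := by
      have := Real.one_sub_inv_le_log_of_pos hq0
      rw [one_div]
      linarith
    have h4 : Real.negMulLog y = 4 * (q ^ 4 * -Real.log q) := by
      unfold Real.negMulLog
      rw [← hq4, Real.log_pow]
      push_cast
      ring
    rw [h4]
    have h5 : q ^ 4 * -Real.log q ≤ q ^ 3 := by
      have := mul_le_mul_of_nonneg_left h3 (by positivity : (0 : ℝ) ≤ q ^ 4)
      have e : q ^ 4 * (1 / q) = q ^ 3 := by field_simp
      linarith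
    have h6 : q ^ 3 ≤ √u ^ 3 := pow_le_pow_left₀ hq0.le hqu 3
    have h7 : √u ^ 3 = u * √u := by
      calc √u ^ 3 = √u ^ 2 * √u := by ring
        _ = u * √u := by rw [hsu2]
    linarith
  unfold kk en
  rw [← hm, ← hy]
  linarith

lemma kk_deriv {y : ℝ} (h0 : 0 < y) (h1 : y < 1) : ∃ c : ℝ, 0 < c ∧ HasDerivAt kk c y := by
  have hy : 0 < 1 - y := by linarith
  set m := √(1 - y) with hm
  have hm0 : 0 < m := Real.sqrt_pos.mpr hy
  have hm2 : m ^ 2 = 1 - y := Real.sq_sqrt hy.le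
  have hm1 : m < 1 := by nlinarith
  have d1 : HasDerivAt (fun y : ℝ => √(1 - y)) (-1 / (2 * m)) y := by
    have h : HasDerivAt (fun y : ℝ => 1 - y) (-1) y := by
      simpa using (hasDerivAt_id y).const_sub 1
    exact h.sqrt hy.ne'
  have d2 : HasDerivAt (fun m : ℝ => (1 + m) / 2) (1 / 2) m := by
    simpa using ((hasDerivAt_id m).const_add 1).div_const 2
  have d3 : HasDerivAt (fun m : ℝ => (1 - m) / 2) (-1 / 2) m := by
    simpa using ((hasDerivAt_id m).const_sub 1).div_const 2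
  have d4 := (Real.hasDerivAt_negMulLog (x := (1 + m) / 2) (by linarith)).comp m d2
  have d5 := (Real.hasDerivAt_negMulLog (x := (1 - m) / 2) (by linarith)).comp m d3
  have d6 : HasDerivAt en ((-Real.log ((1 + m) / 2) - 1) * (1 / 2)
      + (-Real.log ((1 - m) / 2) - 1) * (-1 / 2)) m := d4.add d5
  refine ⟨_, ?_, HasDerivAt.comp y (h₂ := en) (h := fun y : ℝ => √(1 - y)) d6 d1⟩
  have hlog : Real.log ((1 - m) / 2) < Real.log ((1 + m) / 2) :=
    Real.log_lt_log (by linarith) (by linarith)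
  have e : ((-Real.log ((1 + m) / 2) - 1) * (1 / 2) + (-Real.log ((1 - m) / 2) - 1) * (-1 / 2))
      * (-1 / (2 * m)) = (Real.log ((1 + m) / 2) - Real.log ((1 - m) / 2)) / (4 * m) := by
    field_simp
    ring
  rw [e]
  apply div_pos (by linarith) (by linarith)

/-- the bracket is not minimal at `u = 0` -/
lemma br_lt {δ : ℝ} (h0 : 0 < δ) (h1 : δ < 1 / 2) :
    ∃ u : ℝ, 0 < u ∧ u ≤ 1 - 2 * δ ∧ br δ u < br δ 0 := by
  obtain ⟨c, hc, hd⟩ := kk_deriv (y := 2 * δ) (by linarith) (by linarith)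
  have d1 : HasDerivAt (fun u : ℝ => u ^ 2 + 2 * δ * u + 2 * δ) (2 * δ) 0 := by
    have e1 : HasDerivAt (fun u : ℝ => u ^ 2) (2 * 0) 0 := by
      simpa using hasDerivAt_pow 2 (0 : ℝ)
    have e2 : HasDerivAt (fun u : ℝ => 2 * δ * u) (2 * δ) 0 := by
      simpa using (hasDerivAt_id (0 : ℝ)).const_mul (2 * δ)
    have := (e1.add e2).add_const (2 * δ)
    simpa using this
  have d2 : HasDerivAt (fun u : ℝ => kk (u ^ 2 + 2 * δ * u + 2 * δ)) (c * (2 * δ)) 0 := by
    refine HasDerivAt.comp 0 (h₂ := kk) (h := fun u : ℝ => u ^ 2 + 2 * δ * u + 2 * δ) ?_ d1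
    simpa using hd
  have hs := hasDerivAt_iff_tendsto_slope.mp d2
  have hcd : 0 < c * δ := by positivity
  have hev : ∀ᶠ u in 𝓝[>] (0 : ℝ), c * δ < slope (fun u : ℝ => kk (u ^ 2 + 2 * δ * u + 2 * δ)) 0 u := by
    have h2 : c * δ < c * (2 * δ) := by linarith
    have h3 := (tendsto_order.mp hs).1 _ h2
    exact h3.filter_mono (nhdsWithin_mono 0 fun x hx => by
      have : 0 < x := hx
      exact this.ne')
  have hev2 : ∀ᶠ u in 𝓝[>] (0 : ℝ), u < min (1 - 2 * δ) (min 1 ((c * δ / 5) ^ 2)) := by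
    have : (0 : ℝ) < min (1 - 2 * δ) (min 1 ((c * δ / 5) ^ 2)) :=
      lt_min (by linarith) (lt_min one_pos (by positivity))
    exact (eventually_lt_nhds this).filter_mono nhdsWithin_le_nhds
  obtain ⟨u, hu1, hu2, hu0⟩ := (hev.and (hev2.and self_mem_nhdsWithin)).exists
  have hu0' : 0 < u := hu0
  have hu3 : u < 1 - 2 * δ := lt_of_lt_of_le hu2 (min_le_left _ _)
  have hu4 : u < 1 := lt_of_lt_of_le hu2 ((min_le_right _ _).trans (min_le_left _ _))
  have hu5 : u < (c * δ / 5) ^ 2 :=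
    lt_of_lt_of_le hu2 ((min_le_right _ _).trans (min_le_right _ _))
  refine ⟨u, hu0', hu3.le, ?_⟩
  rw [slope_def_field, sub_zero, lt_div_iff₀ hu0'] at hu1
  simp only [ne_eq, OfNat.ofNat_ne_zero, not_false_eq_true, zero_pow, mul_zero, add_zero,
    zero_add] at hu1
  have hsq : √u < c * δ / 5 := by
    rw [Real.sqrt_lt' (by positivity)]
    exact hu5
  have hsq0 : 0 < √u := Real.sqrt_pos.mpr hu0'
  have hus : u ≤ √u := by
    have h := Real.sq_sqrt hu0'.le
    have h1 : √u ≤ 1 := Real.sqrt_le_one.mpr hu4.le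
    nlinarith
  have hk := kk_small hu0' hu4
  have hk2 : kk (u ^ 2) < c * δ * u := by
    have h3 : u ^ 2 / 2 + 4 * (u * √u) ≤ u * (5 * √u) := by nlinarith
    have h4 : u * (5 * √u) < u * (c * δ) := mul_lt_mul_of_pos_left (by linarith) hu0'
    linarith
  unfold br
  simp only [ne_eq, OfNat.ofNat_ne_zero, not_false_eq_true, zero_pow, mul_zero, add_zero,
    zero_add, kk_zero]
  linarith

/-- **Comparison**: some probability measure gives a value strictly below every bracket, by a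
uniform amount. -/
theorem exists_below {δ : ℝ} (h0 : 0 < δ) (h1 : δ < 1 / 2) :
    ∃ (μ : Measure ℝ) (b : ℝ), IsProbabilityMeasure μ ∧ (∀ᵐ t ∂μ, 0 ≤ t ∧ t ≤ 1) ∧
      1 - 2 * δ ≤ ∫ t, √(1 - t) ∂μ ∧ Real.log 2 - 1 / 2 * JM μ < b ∧
      ∀ u, 0 < u → u ≤ 1 - 2 * δ → b ≤ br δ u := by
  obtain ⟨u, hu, hmin⟩ := (isCompact_Icc (a := (0 : ℝ)) (b := 1 - 2 * δ)).exists_isMinOn
    ⟨0, le_rfl, by linarith⟩ (br_cont δ).continuousOn
  have hmin' : ∀ x, 0 ≤ x → x ≤ 1 - 2 * δ → br δ u ≤ br δ x := fun x h2 h3 =>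
    hmin ⟨h2, h3⟩
  have hu0 : 0 < u := by
    rcases hu.1.eq_or_lt with h | h
    · exfalso
      obtain ⟨x, hx0, hx1, hx2⟩ := br_lt h0 h1
      have := hmin' x hx0.le hx1
      rw [← h] at this
      linarith
    · exact h
  have hu1 : u < 1 := by linarith [hu.2]
  have h1u : 0 < 1 - u := by linarith
  set w1 : ℝ := 2 * δ / (1 - u) with hw1
  set w0 : ℝ := 1 - w1 with hw0
  have hw1' : 0 ≤ w1 := by positivity
  have hw0' : 0 ≤ w0 := by
    rw [hw0, hw1, sub_nonneg, div_le_one h1u]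
    linarith [hu.2]
  have hm0 : 0 < 1 - 2 * δ := by linarith
  have hm1 : 1 - 2 * δ < 1 := by linarith
  have hmw : w0 + w1 * u = 1 - 2 * δ := by
    rw [hw0, hw1]
    field_simp
    ring
  obtain ⟨a, ha0, ha1, hlt⟩ := J_gain hu0 hu1 hw0' hw1' (by rw [hw0]; ring) hm0 hm1
  have g0 : 0 ≤ (1 - a) * w0 + (1 - 2 * δ) * a := by
    have : 0 ≤ 1 - a := by linarith
    positivity
  have g1 : 0 ≤ (1 - a) * w1 := mul_nonneg (by linarith) hw1'
  have g2 : 0 ≤ (1 - (1 - 2 * δ)) * a := mul_nonneg (by linarith) ha0.le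
  have hu2 : 0 < u ^ 2 := by positivity
  have hu21 : u ^ 2 < 1 := by nlinarith
  refine ⟨m3 ((1 - a) * w0 + (1 - 2 * δ) * a) ((1 - a) * w1) ((1 - (1 - 2 * δ)) * a) (1 - u ^ 2),
    br δ u, m3_prob g0 g1 g2 (by rw [hw0]; ring), m3_supp (by linarith) (by linarith), ?_, ?_,
    fun x hx0 hx1 => hmin' x hx0.le hx1⟩
  · rw [int_m3 g0 g1 g2 (by fun_prop)]
    rw [sub_zero, Real.sqrt_one, sub_self, Real.sqrt_zero, mul_zero, add_zero, mul_one,
      show 1 - (1 - u ^ 2) = u ^ 2 by ring, Real.sqrt_sq hu0.le]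
    have e : (1 - a) * w0 + (1 - 2 * δ) * a + (1 - a) * w1 * u
        = (1 - a) * (w0 + w1 * u) + (1 - 2 * δ) * a := by ring
    rw [e, hmw]
    linarith
  · rw [JM_m3 hw0' hw1' hm0 hm1 ha0 ha1]
    have h2 := J_two hu0 hu1 hw0' hw1' (by rw [hw0]; ring)
    have e1 : 1 - (u ^ 2 + 2 * δ * u + 2 * δ) = w0 * (1 - u ^ 2) := by
      rw [hw0, hw1]
      field_simp
      ring
    unfold br kk
    rw [e1]
    linarith

end Pool.Agent.TH590.FF
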