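import Pool.Agent.H235R2.QLP.Rate
import Pool.Agent.H390R2.LP.Main

/-!
# The bound on binary codes given by a site (after `Pool.Agent.TH753.MB3`, helper753)
-/

set_option autoImplicit false
set_option linter.unusedVariables false

open Finset Matrix

namespace Pool.Agent.TH590.FF

open Pool.Agent.H390R2.LP Pool.Agent.H235R2.QLP

/-- The bound on binary codes given by a site of energy at most `δ`. -/
theorem code_bound {Ω : Type} [Fintype Ω] [DecidableEq Ω] (s : Site Ω (Fin 2)) {δ ε : ℝ}
    (hδ : 0 < δ) (hE : EH s ≤ δ) (hε : 0 < ε) : ∃ n0 : ℕ, ∀ n ≥ n0, ∀ C : Finset (Fin n → Bool),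
      (∀ x ∈ C, ∀ y ∈ C, x ≠ y → δ * n ≤ hammingDist x y) →
      (C.card : ℝ) ≤ (2 : ℝ) ^ ((1 - cc s / Real.log 2 + ε) * n) := by
  have hlog : 0 < Real.log 2 := Real.log_pos (by norm_num)
  set t : ℝ := min (1 / 2) (ε * Real.log 2 / (2 * (|cc s| + 1))) with ht
  have hden : 0 < 2 * (|cc s| + 1) := by positivity
  have ht0 : 0 < t := lt_min (by norm_num) (by positivity)
  have ht1 : t ≤ 1 / 2 := min_le_left _ _
  have ht2 : t * (|cc s| + 1) ≤ ε * Real.log 2 / 2 := by
    have h1 : t ≤ ε * Real.log 2 / (2 * (|cc s| + 1)) := min_le_right _ _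
    rw [le_div_iff₀ hden] at h1
    linarith
  set s' := mix s (triv (0 : Fin 2)) (1 - t) (by linarith) (by linarith) with hs'
  have hE' : EH s' < δ := by
    rw [hs', EH_mix, EH_triv, mul_zero, add_zero]
    have : (1 - t) * EH s ≤ (1 - t) * δ := mul_le_mul_of_nonneg_left hE (by linarith)
    nlinarith
  have hcc : cc s' = (1 - t) * cc s := by
    rw [hs', cc_mix, cc_triv, mul_zero, add_zero]
  obtain ⟨n0, hn0⟩ := card_le_of_iid iid (by norm_num : 0 < 2) s' hE'
    (η := ε * Real.log 2 / 2) (by positivity)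
  refine ⟨n0, fun n hn C hC => ?_⟩
  have e : Bool ≃ Fin 2 := (finTwoEquiv).symm
  have hinj : Function.Injective (fun (x : Fin n → Bool) (k : Fin n) => e (x k)) := by
    intro x y hxy
    funext k
    exact e.injective (congrFun hxy k)
  have h2 := hn0 n hn (C.map ⟨fun x k => e (x k), hinj⟩) (by
    intro x hx y hy hxy
    simp only [Finset.mem_map, Function.Embedding.coeFn_mk] at hx hy
    obtain ⟨a, ha, rfl⟩ := hx
    obtain ⟨b, hb, rfl⟩ := hy
    have hab : a ≠ b := fun h => hxy (by rw [h])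
    have h3 : hammingDist (fun k => e (a k)) (fun k => e (b k)) = hammingDist a b :=
      hammingDist_comp (fun _ => e) (fun _ => e.injective)
    rw [h3]
    exact hC a ha b hb hab)
  rw [Finset.card_map] at h2
  refine le_trans h2 ?_
  push_cast
  rw [Real.rpow_def_of_pos (by norm_num : (0 : ℝ) < 2),
    ← Real.exp_log (show (0 : ℝ) < (2 : ℝ) ^ n by positivity), ← Real.exp_add, Real.log_pow]
  apply Real.exp_le_exp.mpr
  rw [hcc]
  have h5 : Real.log 2 * ((1 - cc s / Real.log 2 + ε) * n)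
      = (Real.log 2 - cc s + ε * Real.log 2) * n := by
    field_simp
  rw [h5]
  have h6 : t * cc s ≤ ε * Real.log 2 / 2 := by
    have : cc s ≤ |cc s| + 1 := by linarith [le_abs_self (cc s)]
    exact le_trans (mul_le_mul_of_nonneg_left this ht0.le) ht2
  have hn : (0 : ℝ) ≤ n := Nat.cast_nonneg n
  have h7 : ↑n * Real.log 2 + -(↑n * ((1 - t) * cc s - ε * Real.log 2 / 2))
      = (Real.log 2 - cc s + (t * cc s + ε * Real.log 2 / 2)) * n := by ring
  rw [h7]
  exact mul_le_mul_of_nonneg_right (by linarith) hn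

end Pool.Agent.TH590.FF
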