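import Mathlib

/-!
# The Clifford algebra on functions on the discrete cube (Jordan-Wigner representation)
-/

set_option autoImplicit false

open Finset Matrix

namespace Pool.Agent.TH590.FF

variable {N : ℕ}

/-- points of the cube -/
abbrev Om (N : ℕ) := Fin N → Bool

/-- signs -/
def z (s : Om N) (k : Fin N) : ℝ := if s k then 1 else -1

/-- flip one coordinate -/
def fl (k : Fin N) (s : Om N) : Om N := Function.update s k (!s k)

/-- the sign of the first `k` coordinates -/
def chi (k : Fin N) (s : Om N) : ℝ := ∏ j, if j < k then z s j else 1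

lemma z_mul_self (s : Om N) (k : Fin N) : z s k * z s k = 1 := by
  unfold z; split_ifs <;> norm_num

lemma z_sq (s : Om N) (k : Fin N) : z s k ^ 2 = 1 := by rw [sq, z_mul_self]

lemma z_cases (s : Om N) (k : Fin N) : z s k = 1 ∨ z s k = -1 := by
  unfold z; split_ifs <;> simp

lemma fl_same (k : Fin N) (s : Om N) : fl k s k = !s k := by simp [fl]

lemma fl_ne {j k : Fin N} (h : j ≠ k) (s : Om N) : fl k s j = s j := by simp [fl, h]

lemma z_fl_same (k : Fin N) (s : Om N) : z (fl k s) k = -z s k := by
  unfold z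
  rw [fl_same]
  cases s k <;> simp

lemma z_fl_ne {j k : Fin N} (h : j ≠ k) (s : Om N) : z (fl k s) j = z s j := by
  unfold z
  rw [fl_ne h]

lemma fl_fl (k : Fin N) (s : Om N) : fl k (fl k s) = s := by
  funext j
  by_cases h : j = k
  · subst h; simp [fl]
  · rw [fl_ne h, fl_ne h]

lemma fl_comm (j k : Fin N) (s : Om N) : fl j (fl k s) = fl k (fl j s) := by
  by_cases hjk : j = k
  · subst hjk; rfl
  · funext i
    by_cases h1 : i = j
    · subst h1
      rw [fl_same, fl_ne hjk, fl_ne hjk, fl_same]
    · by_cases h2 : i = k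
      · subst h2
        rw [fl_ne h1, fl_same, fl_same, fl_ne h1]
      · rw [fl_ne h1, fl_ne h2, fl_ne h2, fl_ne h1]

lemma fl_eq_iff (k : Fin N) (s t : Om N) : t = fl k s ↔ s = fl k t := by
  constructor
  · rintro rfl; rw [fl_fl]
  · rintro rfl; rw [fl_fl]

lemma fl_inj {j k : Fin N} {s : Om N} (h : fl j s = fl k s) : j = k := by
  by_contra hne
  have := congrFun h j
  rw [fl_same, fl_ne hne] at this
  cases hs : s j <;> simp [hs] at this

lemma chi_mul_self (k : Fin N) (s : Om N) : chi k s * chi k s = 1 := by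
  unfold chi
  rw [← Finset.prod_mul_distrib]
  refine Finset.prod_eq_one fun j _ => ?_
  split_ifs
  · exact z_mul_self s j
  · norm_num

lemma chi_fl_not (j k : Fin N) (h : ¬ j < k) (s : Om N) : chi k (fl j s) = chi k s := by
  unfold chi
  refine Finset.prod_congr rfl fun i _ => ?_
  by_cases hi : i < k
  · rw [if_pos hi, if_pos hi, z_fl_ne]
    rintro rfl
    exact h hi
  · rw [if_neg hi, if_neg hi]

lemma chi_fl_lt (j k : Fin N) (h : j < k) (s : Om N) : chi k (fl j s) = -chi k s := by
  unfold chi
  rw [← Finset.mul_prod_erase univ _ (Finset.mem_univ j),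
    ← Finset.mul_prod_erase univ (fun i => if i < k then z s i else 1) (Finset.mem_univ j)]
  rw [if_pos h, if_pos h, z_fl_same, neg_mul]
  congr 2
  refine Finset.prod_congr rfl fun i hi => ?_
  rw [Finset.mem_erase] at hi
  split_ifs
  · rw [z_fl_ne hi.1]
  · rfl

/-- a sum over the cube of a product of functions of the coordinates -/
lemma sum_prod (F : Fin N → Bool → ℝ) :
    ∑ s : Om N, ∏ k, F k (s k) = ∏ k, (F k true + F k false) := by
  have h : ∏ k, (F k true + F k false) = ∏ k, ∑ b : Bool, F k b := by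
    refine Finset.prod_congr rfl fun k _ => ?_
    rw [Fintype.sum_bool]
  rw [h, Finset.prod_univ_sum]
  rfl

/-- functions invariant under flips are constant -/
lemma const_of_fl (f : Om N → ℝ) (h : ∀ k s, f (fl k s) = f s) (s t : Om N) : f s = f t := by
  have key : ∀ S : Finset (Fin N), f (fun i => if i ∈ S then t i else s i) = f s := by
    intro S
    induction S using Finset.induction_on with
    | empty => simp
    | insert a S ha ih =>
      rw [← ih]
      by_cases hst : t a = s a
      · congr 1
        funext i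
        by_cases hi : i = a
        · subst hi; simp [ha, hst]
        · simp [hi]
      · rw [← h a (fun i => if i ∈ S then t i else s i)]
        congr 1
        funext i
        by_cases hi : i = a
        · subst hi
          rw [fl_same]
          simp only [Finset.mem_insert, true_or, if_true, ha, if_false]
          cases h1 : t i <;> cases h2 : s i <;> simp_all
        · rw [fl_ne hi]
          simp [hi]
  have := key univ
  simp only [Finset.mem_univ, if_true] at this
  exact this.symm

/-! ### The operators -/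

/-- `A k` -/
def A (k : Fin N) : Matrix (Om N) (Om N) ℝ := Matrix.of fun s t => if t = fl k s then chi k s else 0

/-- `Z k` -/
def Z (k : Fin N) : Matrix (Om N) (Om N) ℝ := Matrix.diagonal fun s => z s k

/-- `C k` -/
def C (k : Fin N) : Matrix (Om N) (Om N) ℝ := A k * Z k

lemma A_mul (k : Fin N) (M : Matrix (Om N) (Om N) ℝ) (s t : Om N) :
    (A k * M) s t = chi k s * M (fl k s) t := by
  rw [Matrix.mul_apply, Finset.sum_eq_single (fl k s)]
  · simp [A]
  · intro b _ hb; simp [A, hb]
  · simp

lemma Z_mul (k : Fin N) (M : Matrix (Om N) (Om N) ℝ) (s t : Om N) :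
    (Z k * M) s t = z s k * M s t := by
  unfold Z
  rw [Matrix.diagonal_mul]

lemma A_transpose (k : Fin N) : (A k)ᵀ = A k := by
  ext s t
  rw [Matrix.transpose_apply]
  simp only [A, Matrix.of_apply]
  by_cases h : s = fl k t
  · rw [if_pos h, if_pos ((fl_eq_iff k s t).mpr h), h, chi_fl_not k k (lt_irrefl _)]
  · rw [if_neg h, if_neg fun h' => h ((fl_eq_iff k s t).mp h')]

lemma Z_transpose (k : Fin N) : (Z k)ᵀ = Z k := by
  unfold Z; exact Matrix.diagonal_transpose _

lemma A_sq (k : Fin N) : A k * A k = 1 := by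
  ext s t
  rw [A_mul]
  simp only [A, Matrix.of_apply, fl_fl, Matrix.one_apply]
  by_cases h : s = t
  · subst h
    rw [if_pos rfl, if_pos rfl, chi_fl_not k k (lt_irrefl _), chi_mul_self]
  · rw [if_neg h, if_neg (Ne.symm h), mul_zero]

lemma Z_sq (k : Fin N) : Z k * Z k = 1 := by
  unfold Z
  rw [Matrix.diagonal_mul_diagonal, ← Matrix.diagonal_one]
  congr 1
  funext s
  exact z_mul_self s k

lemma Z_comm (j k : Fin N) : Z j * Z k = Z k * Z j := by
  unfold Z
  rw [Matrix.diagonal_mul_diagonal, Matrix.diagonal_mul_diagonal]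
  congr 1
  funext s
  ring

lemma Z_A_same (k : Fin N) : Z k * A k = -(A k * Z k) := by
  ext s t
  rw [Z_mul, Matrix.neg_apply, A_mul]
  simp only [A, Z, Matrix.of_apply, Matrix.diagonal_apply]
  by_cases h : t = fl k s
  · subst h
    rw [if_pos rfl, if_pos rfl, z_fl_same]
    ring
  · rw [if_neg h, if_neg (Ne.symm h)]; ring

lemma Z_A_ne {j k : Fin N} (h : j ≠ k) : Z j * A k = A k * Z j := by
  ext s t
  rw [Z_mul, A_mul]
  simp only [A, Z, Matrix.of_apply, Matrix.diagonal_apply]
  by_cases ht : t = fl k s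
  · subst ht
    rw [if_pos rfl, if_pos rfl, z_fl_ne h]
    ring
  · rw [if_neg ht, if_neg (Ne.symm ht)]; ring

lemma A_A_lt {j k : Fin N} (h : j < k) : A j * A k = -(A k * A j) := by
  ext s t
  rw [Matrix.neg_apply, A_mul, A_mul]
  simp only [A, Matrix.of_apply]
  rw [fl_comm k j s, chi_fl_lt j k h, chi_fl_not k j (not_lt.mpr h.le)]
  split_ifs <;> ring

lemma A_A_ne {j k : Fin N} (h : j ≠ k) : A j * A k = -(A k * A j) := by
  rcases lt_or_gt_of_ne h with h | h
  · exact A_A_lt h
  · rw [A_A_lt h, neg_neg]

lemma AA (j k : Fin N) : A j * A k + A k * A j = if j = k then (2 : ℝ) • 1 else 0 := by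
  split_ifs with h
  · subst h; rw [A_sq, two_smul]
  · rw [A_A_ne h, neg_add_cancel]

lemma CC (j k : Fin N) : C j * C k + C k * C j = if j = k then (-2 : ℝ) • 1 else 0 := by
  split_ifs with h
  · subst h
    have : C j * C j = -1 := by
      unfold C
      calc A j * Z j * (A j * Z j) = A j * (Z j * A j) * Z j := by noncomm_ring
        _ = -((A j * A j) * (Z j * Z j)) := by rw [Z_A_same]; noncomm_ring
        _ = -1 := by rw [A_sq, Z_sq, one_mul]
    rw [this, neg_smul, two_smul]
    abel
  · have e1 : C j * C k = (A j * A k) * (Z j * Z k) := by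
      unfold C
      calc A j * Z j * (A k * Z k) = A j * (Z j * A k) * Z k := by noncomm_ring
        _ = _ := by rw [Z_A_ne h]; noncomm_ring
    have e2 : C k * C j = (A k * A j) * (Z j * Z k) := by
      unfold C
      calc A k * Z k * (A j * Z j) = A k * (Z k * A j) * Z j := by noncomm_ring
        _ = A k * (A j * Z k) * Z j := by rw [Z_A_ne (Ne.symm h)]
        _ = A k * A j * (Z k * Z j) := by noncomm_ring
        _ = _ := by rw [Z_comm k j]
    rw [e1, e2, A_A_ne h, neg_mul, neg_add_cancel]

lemma AC_same (k : Fin N) : A k * C k = Z k := by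
  unfold C
  rw [← mul_assoc, A_sq, one_mul]

lemma AC (j k : Fin N) : A j * C k + C k * A j = 0 := by
  by_cases h : j = k
  · subst h
    have e : C j * A j = -Z j := by
      unfold C
      rw [mul_assoc, Z_A_same, mul_neg, ← mul_assoc, A_sq, one_mul]
    rw [AC_same, e, add_neg_cancel]
  · have e1 : C k * A j = A k * A j * Z k := by
      unfold C
      rw [mul_assoc, Z_A_ne (Ne.symm h), ← mul_assoc]
    have e2 : A j * C k = A j * A k * Z k := by
      unfold C
      rw [← mul_assoc]
    rw [e1, e2, A_A_ne h, neg_mul, neg_add_cancel]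

lemma C_transpose (k : Fin N) : (C k)ᵀ = -C k := by
  unfold C
  rw [Matrix.transpose_mul, A_transpose, Z_transpose, Z_A_same]

/-! ### Linear combinations -/

/-- `∑ a k A k` -/
noncomputable def LA (a : Fin N → ℝ) : Matrix (Om N) (Om N) ℝ := ∑ k, a k • A k

/-- `∑ a k C k` -/
noncomputable def LC (a : Fin N → ℝ) : Matrix (Om N) (Om N) ℝ := ∑ k, a k • C k

lemma LA_LA (a b : Fin N → ℝ) : LA a * LA b + LA b * LA a = (2 * ∑ k, a k * b k) • 1 := by
  have h1 : LA a * LA b = ∑ j, ∑ k, (a j * b k) • (A j * A k) := by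
    unfold LA
    rw [Finset.sum_mul_sum]
    refine Finset.sum_congr rfl fun j _ => Finset.sum_congr rfl fun k _ => ?_
    rw [smul_mul_smul_comm]
  have h2 : LA b * LA a = ∑ j, ∑ k, (a j * b k) • (A k * A j) := by
    unfold LA
    rw [Finset.sum_mul_sum, Finset.sum_comm]
    refine Finset.sum_congr rfl fun j _ => Finset.sum_congr rfl fun k _ => ?_
    rw [smul_mul_smul_comm, mul_comm (b k) (a j)]
  rw [h1, h2, ← Finset.sum_add_distrib]
  simp_rw [← Finset.sum_add_distrib, ← smul_add, AA]
  simp only [smul_ite, smul_zero, Finset.sum_ite_eq, Finset.mem_univ, if_true, smul_smul]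
  rw [← Finset.sum_smul, Finset.mul_sum]
  congr 1
  exact Finset.sum_congr rfl fun k _ => by ring

lemma LC_LC (a b : Fin N → ℝ) : LC a * LC b + LC b * LC a = (-(2 * ∑ k, a k * b k)) • 1 := by
  have h1 : LC a * LC b = ∑ j, ∑ k, (a j * b k) • (C j * C k) := by
    unfold LC
    rw [Finset.sum_mul_sum]
    refine Finset.sum_congr rfl fun j _ => Finset.sum_congr rfl fun k _ => ?_
    rw [smul_mul_smul_comm]
  have h2 : LC b * LC a = ∑ j, ∑ k, (a j * b k) • (C k * C j) := by
    unfold LC
    rw [Finset.sum_mul_sum, Finset.sum_comm]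
    refine Finset.sum_congr rfl fun j _ => Finset.sum_congr rfl fun k _ => ?_
    rw [smul_mul_smul_comm, mul_comm (b k) (a j)]
  rw [h1, h2, ← Finset.sum_add_distrib]
  simp_rw [← Finset.sum_add_distrib, ← smul_add, CC]
  simp only [smul_ite, smul_zero, Finset.sum_ite_eq, Finset.mem_univ, if_true, smul_smul]
  rw [← Finset.sum_smul, Finset.mul_sum, ← Finset.sum_neg_distrib]
  congr 1
  exact Finset.sum_congr rfl fun k _ => by ring

lemma LA_LC (a b : Fin N → ℝ) : LA a * LC b + LC b * LA a = 0 := by
  have h1 : LA a * LC b = ∑ j, ∑ k, (a j * b k) • (A j * C k) := by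
    unfold LA LC
    rw [Finset.sum_mul_sum]
    refine Finset.sum_congr rfl fun j _ => Finset.sum_congr rfl fun k _ => ?_
    rw [smul_mul_smul_comm]
  have h2 : LC b * LA a = ∑ j, ∑ k, (a j * b k) • (C k * A j) := by
    unfold LA LC
    rw [Finset.sum_mul_sum, Finset.sum_comm]
    refine Finset.sum_congr rfl fun j _ => Finset.sum_congr rfl fun k _ => ?_
    rw [smul_mul_smul_comm, mul_comm (b k) (a j)]
  rw [h1, h2, ← Finset.sum_add_distrib]
  simp_rw [← Finset.sum_add_distrib, ← smul_add, AC]
  simp

lemma LA_transpose (a : Fin N → ℝ) : (LA a)ᵀ = LA a := by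
  unfold LA
  rw [Matrix.transpose_sum]
  exact Finset.sum_congr rfl fun k _ => by rw [Matrix.transpose_smul, A_transpose]

lemma LC_transpose (a : Fin N → ℝ) : (LC a)ᵀ = -LC a := by
  unfold LC
  rw [Matrix.transpose_sum, ← Finset.sum_neg_distrib]
  exact Finset.sum_congr rfl fun k _ => by rw [Matrix.transpose_smul, C_transpose, smul_neg]

/-! ### Gaussian states -/

/-- commutation relation of a product state with `A k` -/
lemma comm_A (r : Om N → ℝ) (l : Fin N → ℝ) (k : Fin N)
    (h : ∀ s, r (fl k s) * (1 + z s k * l k) = r s * (1 - z s k * l k)) :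
    A k * Matrix.diagonal r - Matrix.diagonal r * A k
      = l k • (C k * Matrix.diagonal r + Matrix.diagonal r * C k) := by
  ext s t
  simp only [Matrix.sub_apply, Matrix.smul_apply, Matrix.add_apply, smul_eq_mul,
    Matrix.mul_diagonal, Matrix.diagonal_mul, C, Z, A, Matrix.of_apply]
  by_cases ht : t = fl k s
  · subst ht
    rw [if_pos rfl, z_fl_same]
    have := h s
    linear_combination chi k s * this
  · rw [if_neg ht]; ring

/-- commutation relation of a product state with `C k` -/
lemma comm_C (r : Om N → ℝ) (l : Fin N → ℝ) (k : Fin N)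
    (h : ∀ s, r (fl k s) * (1 + z s k * l k) = r s * (1 - z s k * l k)) :
    C k * Matrix.diagonal r - Matrix.diagonal r * C k
      = l k • (A k * Matrix.diagonal r + Matrix.diagonal r * A k) := by
  ext s t
  simp only [Matrix.sub_apply, Matrix.smul_apply, Matrix.add_apply, smul_eq_mul,
    Matrix.mul_diagonal, Matrix.diagonal_mul, C, Z, A, Matrix.of_apply]
  by_cases ht : t = fl k s
  · subst ht
    rw [if_pos rfl, z_fl_same]
    have h1 := h s
    have h2 := z_mul_self s k
    linear_combination (-(chi k s * z s k)) * h1 + (chi k s * l k * (r (fl k s) + r s)) * h2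
  · rw [if_neg ht]; ring

/-- commutation relations of a product state with linear combinations -/
lemma comm_LA (r : Om N → ℝ) (l : Fin N → ℝ)
    (h : ∀ k s, r (fl k s) * (1 + z s k * l k) = r s * (1 - z s k * l k)) (a : Fin N → ℝ) :
    LA a * Matrix.diagonal r - Matrix.diagonal r * LA a
      = LC (fun k => l k * a k) * Matrix.diagonal r
        + Matrix.diagonal r * LC (fun k => l k * a k) := by
  unfold LA LC
  rw [Finset.sum_mul, Finset.mul_sum, Finset.sum_mul, Finset.mul_sum, ← Finset.sum_sub_distrib,
    ← Finset.sum_add_distrib]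
  refine Finset.sum_congr rfl fun k _ => ?_
  rw [smul_mul_assoc, mul_smul_comm, ← smul_sub, comm_A r l k (h k), smul_mul_assoc,
    mul_smul_comm, ← smul_add, smul_smul, mul_comm]

lemma comm_LC (r : Om N → ℝ) (l : Fin N → ℝ)
    (h : ∀ k s, r (fl k s) * (1 + z s k * l k) = r s * (1 - z s k * l k)) (a : Fin N → ℝ) :
    LC a * Matrix.diagonal r - Matrix.diagonal r * LC a
      = LA (fun k => l k * a k) * Matrix.diagonal r
        + Matrix.diagonal r * LA (fun k => l k * a k) := by
  unfold LA LC
  rw [Finset.sum_mul, Finset.mul_sum, Finset.sum_mul, Finset.mul_sum, ← Finset.sum_sub_distrib,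
    ← Finset.sum_add_distrib]
  refine Finset.sum_congr rfl fun k _ => ?_
  rw [smul_mul_assoc, mul_smul_comm, ← smul_sub, comm_C r l k (h k), smul_mul_assoc,
    mul_smul_comm, ← smul_add, smul_smul, mul_comm]

end Pool.Agent.TH590.FF
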