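import Pool.Agent.TH590.FF.Fock

/-!
# The dephased state in the basis of the rotated modes
-/

set_option autoImplicit false

open Finset Matrix

set_option linter.unusedSectionVars false
set_option linter.unusedVariables false

namespace Pool.Agent.TH590.FF

section balance

variable {N : ℕ}

/-- the weights `∏ (1 + z_k ν_k) / 2` -/
noncomputable def pr (ν : Fin N → ℝ) (s : Om N) : ℝ := ∏ k, (1 + z s k * ν k) / 2

lemma pr_fl (ν : Fin N → ℝ) (k : Fin N) (s : Om N) :
    pr ν (fl k s) * (1 + z s k * ν k) = pr ν s * (1 - z s k * ν k) := by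
  unfold pr
  rw [← Finset.mul_prod_erase univ _ (Finset.mem_univ k),
    ← Finset.mul_prod_erase univ (fun i => (1 + z s i * ν i) / 2) (Finset.mem_univ k), z_fl_same]
  have e : ∏ i ∈ univ.erase k, (1 + z (fl k s) i * ν i) / 2
      = ∏ i ∈ univ.erase k, (1 + z s i * ν i) / 2 := by
    refine Finset.prod_congr rfl fun i hi => ?_
    rw [Finset.mem_erase] at hi
    rw [z_fl_ne hi.1]
  rw [e]
  ring

lemma pr_pos {ν : Fin N → ℝ} (hν : ∀ k, |ν k| < 1) (s : Om N) : 0 < pr ν s := by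
  unfold pr
  refine Finset.prod_pos fun k _ => ?_
  have h := abs_lt.mp (hν k)
  rcases z_cases s k with h1 | h1 <;> rw [h1] <;> linarith [h.1, h.2]

lemma pr_nonneg {ν : Fin N → ℝ} (hν : ∀ k, |ν k| ≤ 1) (s : Om N) : 0 ≤ pr ν s := by
  unfold pr
  refine Finset.prod_nonneg fun k _ => ?_
  have h := abs_le.mp (hν k)
  rcases z_cases s k with h1 | h1 <;> rw [h1] <;> linarith [h.1, h.2]

lemma sum_pr (ν : Fin N → ℝ) : ∑ s : Om N, pr ν s = 1 := by
  have h := sum_prod (N := N) (fun k b => (1 + (if b then (1 : ℝ) else -1) * ν k) / 2)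
  have e : ∀ s : Om N, pr ν s = ∏ k, (1 + (if s k then (1 : ℝ) else -1) * ν k) / 2 := fun s => rfl
  simp_rw [e]
  rw [h]
  refine Finset.prod_eq_one fun k _ => ?_
  simp
  ring

/-- detailed balance determines the distribution -/
lemma eq_pr {ν : Fin N → ℝ} (hν : ∀ k, |ν k| < 1) (f : Om N → ℝ)
    (h : ∀ k s, f (fl k s) * (1 + z s k * ν k) = f s * (1 - z s k * ν k))
    (hf : ∑ s, f s = 1) (s : Om N) : f s = pr ν s := by
  have hc := const_of_fl (fun s => f s / pr ν s) (by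
    intro k s
    have h1 := h k s
    have h2 := pr_fl ν k s
    have p1 := pr_pos hν s
    have p2 := pr_pos hν (fl k s)
    have h3 : 0 < 1 + z s k * ν k := by
      have h := abs_lt.mp (hν k)
      rcases z_cases s k with h1 | h1 <;> rw [h1] <;> linarith [h.1, h.2]
    show f (fl k s) / pr ν (fl k s) = f s / pr ν s
    rw [div_eq_div_iff p2.ne' p1.ne']
    have h4 : f (fl k s) * pr ν s * (1 + z s k * ν k) = f s * pr ν (fl k s) * (1 + z s k * ν k) := by
      linear_combination pr ν s * h1 - f s * h2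
    exact mul_right_cancel₀ h3.ne' h4)
  have h5 : ∀ t, f t = (f s / pr ν s) * pr ν t := by
    intro t
    have h7 : f t / pr ν t = f s / pr ν s := hc t s
    rw [← h7, div_mul_cancel₀ _ (pr_pos hν t).ne']
  have h6 : ∑ t, f t = (f s / pr ν s) * 1 := by
    rw [← sum_pr ν, Finset.mul_sum]
    exact Finset.sum_congr rfl fun t _ => h5 t
  rw [hf, mul_one] at h6
  rw [h5 s, ← h6, one_mul]

end balance

section modes

variable {n : ℕ} {q p : Fin (n + 1) → Fin (n + 1) → ℝ}

/-- completeness of the rows -/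
lemma ort_complete (hq : Ort q) (k k' : Fin (n + 1)) :
    ∑ i, q i k * q i k' = if k = k' then 1 else 0 := by
  have h1 : (Matrix.of q) * (Matrix.of q).transpose = 1 := by
    ext a b
    simp only [Matrix.mul_apply, Matrix.transpose_apply, Matrix.of_apply, Matrix.one_apply]
    exact hq a b
  have h2 : (Matrix.of q).transpose * (Matrix.of q) = 1 := mul_eq_one_comm.mp h1
  have h3 := congrFun (congrFun h2 k) k'
  simp only [Matrix.mul_apply, Matrix.transpose_apply, Matrix.of_apply, Matrix.one_apply] at h3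
  exact h3

lemma ort_expand (hq : Ort q) (x : Fin (n + 1) → ℝ) :
    x = fun k => ∑ i, (∑ k', q i k' * x k') * q i k := by
  funext k
  have e : ∑ i, (∑ k', q i k' * x k') * q i k = ∑ k', (∑ i, q i k' * q i k) * x k' := by
    simp_rw [Finset.sum_mul]
    rw [Finset.sum_comm]
    exact Finset.sum_congr rfl fun d _ => Finset.sum_congr rfl fun t _ => by ring
  rw [e]
  simp_rw [ort_complete hq]
  simp

lemma LA_sum (c : Fin (n + 1) → ℝ) (y : Fin (n + 1) → Fin (n + 1) → ℝ) :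
    LA (fun k => ∑ i, c i * y i k) = ∑ i, c i • LA (y i) := by
  unfold LA
  simp_rw [Finset.sum_smul, Finset.smul_sum, smul_smul]
  rw [Finset.sum_comm]

lemma LC_smul (m : ℝ) (a : Fin (n + 1) → ℝ) : LC (fun k => m * a k) = m • LC a := by
  unfold LC
  simp_rw [Finset.smul_sum, smul_smul]

/-- the quadratic form of the state -/
def Bf (r : Om (n + 1) → ℝ) (u w : Om (n + 1) → ℝ) : ℝ := u ⬝ᵥ (Matrix.diagonal r *ᵥ w)

lemma Bf_eq (r u w : Om (n + 1) → ℝ) : Bf r u w = ∑ s, r s * (u s * w s) := by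
  unfold Bf dotProduct
  refine Finset.sum_congr rfl fun s _ => ?_
  rw [Matrix.mulVec_diagonal]
  ring

lemma Bf_comm (r u w : Om (n + 1) → ℝ) : Bf r u w = Bf r w u := by
  rw [Bf_eq, Bf_eq]
  exact Finset.sum_congr rfl fun s _ => by ring

lemma Bf_smul_left (r u w : Om (n + 1) → ℝ) (a : ℝ) : Bf r (a • u) w = a * Bf r u w := by
  unfold Bf
  rw [smul_dotProduct, smul_eq_mul]

lemma Bf_smul_right (r u w : Om (n + 1) → ℝ) (a : ℝ) : Bf r u (a • w) = a * Bf r u w := by
  unfold Bf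
  rw [Matrix.mulVec_smul, dotProduct_smul, smul_eq_mul]

lemma dot_AD (r : Om (n + 1) → ℝ) (a : Fin (n + 1) → ℝ) (u w : Om (n + 1) → ℝ) :
    u ⬝ᵥ ((LA a * Matrix.diagonal r) *ᵥ w) = Bf r (LA a *ᵥ u) w := by
  unfold Bf
  rw [← Matrix.mulVec_mulVec, dot_symm (LA_transpose a)]

lemma dot_DA (r : Om (n + 1) → ℝ) (M : Matrix (Om (n + 1)) (Om (n + 1)) ℝ)
    (u w : Om (n + 1) → ℝ) :
    u ⬝ᵥ ((Matrix.diagonal r * M) *ᵥ w) = Bf r u (M *ᵥ w) := by
  unfold Bf
  rw [← Matrix.mulVec_mulVec]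

lemma dot_anti {M : Matrix (Om (n + 1)) (Om (n + 1)) ℝ} (hM : Mᵀ = -M) (x y : Om (n + 1) → ℝ) :
    x ⬝ᵥ (M *ᵥ y) = -((M *ᵥ x) ⬝ᵥ y) := by
  rw [Matrix.dotProduct_mulVec, ← Matrix.mulVec_transpose, hM, Matrix.neg_mulVec, neg_dotProduct]

lemma dot_CD (r : Om (n + 1) → ℝ) (a : Fin (n + 1) → ℝ) (u w : Om (n + 1) → ℝ) :
    u ⬝ᵥ ((LC a * Matrix.diagonal r) *ᵥ w) = -Bf r (LC a *ᵥ u) w := by
  unfold Bf
  rw [← Matrix.mulVec_mulVec, dot_anti (LC_transpose a)]

variable {r : Om (n + 1) → ℝ} {l : Fin (n + 1) → ℝ} {μ : Fin n → ℝ}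

/-- first relation -/
lemma E1 (hr : ∀ k s, r (fl k s) * (1 + z s k * l k) = r s * (1 - z s k * l k))
    (hrel : ∀ j k, l k * q (Fin.succ j) k = μ j * p (Fin.succ j) k) (j : Fin n)
    (u w : Om (n + 1) → ℝ) :
    Bf r (LA (q j.succ) *ᵥ u) w - Bf r u (LA (q j.succ) *ᵥ w)
      = μ j * (-Bf r (LC (p j.succ) *ᵥ u) w + Bf r u (LC (p j.succ) *ᵥ w)) := by
  have h := comm_LA r l hr (q j.succ)
  have e : (fun k => l k * q j.succ k) = fun k => μ j * p j.succ k := funext fun k => hrel j k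
  rw [e, LC_smul] at h
  have h2 := congrArg (fun M => u ⬝ᵥ (M *ᵥ w)) h
  simp only [Matrix.sub_mulVec, Matrix.add_mulVec, dotProduct_sub, dotProduct_add,
    smul_mul_assoc, mul_smul_comm, Matrix.smul_mulVec, dotProduct_smul, smul_eq_mul,
    dot_AD, dot_DA, dot_CD] at h2
  linear_combination h2

/-- the expansion of `l p` -/
lemma expand_lp (hq : Ort q) (hp : Ort p)
    (hrel : ∀ j k, l k * q (Fin.succ j) k = μ j * p (Fin.succ j) k) (m : Fin (n + 1)) :
    LA (fun k => l k * p m k) = (∑ k, q 0 k * (l k * p m k)) • LA (q 0)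
      + ∑ j : Fin n, (if j.succ = m then μ j else 0) • LA (q j.succ) := by
  have h := ort_expand hq (fun k => l k * p m k)
  calc LA (fun k => l k * p m k)
      = LA (fun k => ∑ i, (∑ k', q i k' * (l k' * p m k')) * q i k) := congrArg LA h
    _ = ∑ i, (∑ k', q i k' * (l k' * p m k')) • LA (q i) := LA_sum _ _
    _ = _ := by
      rw [Fin.sum_univ_succ]
      congr 1
      refine Finset.sum_congr rfl fun j _ => ?_
      congr 1
      have e : ∀ k', q j.succ k' * (l k' * p m k') = μ j * (p j.succ k' * p m k') := by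
        intro k'
        have := hrel j k'
        linear_combination p m k' * this
      simp_rw [e]
      rw [← Finset.mul_sum, hp j.succ m]
      split_ifs <;> ring

/-- the position-odd part vanishes -/
lemma Bf_X_odd (r u w : Om (n + 1) → ℝ) {X : Matrix (Om (n + 1)) (Om (n + 1)) ℝ} {x : ℝ}
    (hu : X *ᵥ u = x • u) (hw : X *ᵥ w = (-x) • w) : Bf r (X *ᵥ u) w + Bf r u (X *ᵥ w) = 0 := by
  rw [hu, hw, Bf_smul_left, Bf_smul_right]
  ring

/-- second relation -/
lemma E2 (hq : Ort q) (hp : Ort p)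
    (hr : ∀ k s, r (fl k s) * (1 + z s k * l k) = r s * (1 - z s k * l k))
    (hrel : ∀ j k, l k * q (Fin.succ j) k = μ j * p (Fin.succ j) k) (j : Fin n)
    (u w : Om (n + 1) → ℝ) {x : ℝ} (hu : LA (q 0) *ᵥ u = x • u) (hw : LA (q 0) *ᵥ w = (-x) • w) :
    -Bf r (LC (p j.succ) *ᵥ u) w - Bf r u (LC (p j.succ) *ᵥ w)
      = μ j * (Bf r (LA (q j.succ) *ᵥ u) w + Bf r u (LA (q j.succ) *ᵥ w)) := by
  have h := comm_LC r l hr (p j.succ)
  rw [expand_lp hq hp hrel j.succ] at h
  have e : ∑ i : Fin n, (if i.succ = j.succ then μ i else 0) • LA (q i.succ)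
      = μ j • LA (q j.succ) := by
    rw [Finset.sum_eq_single j]
    · rw [if_pos rfl]
    · intro b _ hb
      rw [if_neg fun h => hb (Fin.succ_injective _ h), zero_smul]
    · simp
  rw [e] at h
  have h2 := congrArg (fun M => u ⬝ᵥ (M *ᵥ w)) h
  simp only [Matrix.sub_mulVec, Matrix.add_mulVec, dotProduct_sub, dotProduct_add, add_mul,
    mul_add, smul_mul_assoc, mul_smul_comm, Matrix.smul_mulVec, dotProduct_smul, smul_eq_mul,
    dot_AD, dot_DA, dot_CD] at h2
  have h3 := Bf_X_odd r u w hu hw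
  linear_combination h2 + (∑ k, q 0 k * (l k * p j.succ k)) * h3

/-- third relation -/
lemma E3 (hq : Ort q) (hp : Ort p)
    (hr : ∀ k s, r (fl k s) * (1 + z s k * l k) = r s * (1 - z s k * l k))
    (hrel : ∀ j k, l k * q (Fin.succ j) k = μ j * p (Fin.succ j) k)
    (u w : Om (n + 1) → ℝ) {x : ℝ} (hu : LA (q 0) *ᵥ u = x • u) (hw : LA (q 0) *ᵥ w = (-x) • w) :
    -Bf r (LC (p 0) *ᵥ u) w - Bf r u (LC (p 0) *ᵥ w) = 0 := by
  have h := comm_LC r l hr (p 0)
  rw [expand_lp hq hp hrel 0] at h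
  have e : ∑ i : Fin n, (if i.succ = (0 : Fin (n + 1)) then μ i else 0) • LA (q i.succ) = 0 := by
    refine Finset.sum_eq_zero fun i _ => ?_
    rw [if_neg (Fin.succ_ne_zero i), zero_smul]
  rw [e, add_zero] at h
  have h2 := congrArg (fun M => u ⬝ᵥ (M *ᵥ w)) h
  simp only [Matrix.sub_mulVec, Matrix.add_mulVec, dotProduct_sub, dotProduct_add, add_mul,
    mul_add, smul_mul_assoc, mul_smul_comm, Matrix.smul_mulVec, dotProduct_smul, smul_eq_mul,
    dot_AD, dot_DA, dot_CD] at h2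
  have h3 := Bf_X_odd r u w hu hw
  linear_combination h2 + (∑ k, q 0 k * (l k * p 0 k)) * h3

variable {v : Om (n + 1) → Om (n + 1) → ℝ}

lemma X_v (hvG : ∀ c i, GG q p i *ᵥ v c = z c i • v c) (c : Om (n + 1)) :
    LA (q 0) *ᵥ v c = z c 0 • v c := by
  have := hvG c 0
  rwa [GG_zero] at this

/-- `c v = z a v` -/
lemma C_v (hq : Ort q) (hvG : ∀ c i, GG q p i *ᵥ v c = z c i • v c) (c : Om (n + 1)) (j : Fin n) :
    LC (p j.succ) *ᵥ v c = z c j.succ • (LA (q j.succ) *ᵥ v c) := by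
  have h := hvG c j.succ
  rw [GG_succ] at h
  have h2 := congrArg (fun y => LA (q j.succ) *ᵥ y) h
  simp only [Matrix.mulVec_mulVec, ← mul_assoc, aa_same hq, one_mul, Matrix.mulVec_smul] at h2
  exact h2

lemma X_A (hq : Ort q) (j : Fin n) (y : Om (n + 1) → ℝ) {x : ℝ} (hy : LA (q 0) *ᵥ y = x • y) :
    LA (q 0) *ᵥ (LA (q j.succ) *ᵥ y) = (-x) • (LA (q j.succ) *ᵥ y) := by
  rw [Matrix.mulVec_mulVec, aa hq (sz j), Matrix.neg_mulVec, ← Matrix.mulVec_mulVec, hy,
    Matrix.mulVec_smul, neg_smul]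

/-- off-diagonal entries of the dephased state vanish -/
lemma off_diag (hq : Ort q) (hp : Ort p)
    (hr : ∀ k s, r (fl k s) * (1 + z s k * l k) = r s * (1 - z s k * l k))
    (hrel : ∀ j k, l k * q (Fin.succ j) k = μ j * p (Fin.succ j) k) (hμ : ∀ j, |μ j| < 1)
    (hvG : ∀ c i, GG q p i *ᵥ v c = z c i • v c) {c d : Om (n + 1)} (h0 : c 0 = d 0)
    (hcd : c ≠ d) : Bf r (v c) (v d) = 0 := by
  obtain ⟨i, hi⟩ := Function.ne_iff.mp hcd
  have hi0 : i ≠ 0 := by rintro rfl; exact hi h0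
  obtain ⟨j, rfl⟩ := Fin.exists_succ_eq.mpr hi0
  have hz : z d j.succ = -z c j.succ := by
    unfold z
    cases h1 : c j.succ <;> cases h2 : d j.succ <;> simp_all
  set a := LA (q j.succ) with ha
  set t := a *ᵥ v c with ht
  set y := a *ᵥ v d with hy
  have hx0 : z c 0 = z d 0 := by unfold z; rw [h0]
  have hXc := X_v hvG c
  have hXd := X_v hvG d
  have hXy : LA (q 0) *ᵥ y = (-z c 0) • y := by
    rw [hx0]
    exact X_A hq j (v d) hXd
  have hay : a *ᵥ y = v d := by
    rw [hy, Matrix.mulVec_mulVec, ha, aa_same hq, Matrix.one_mulVec]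
  have hcc := C_v hq hvG c j
  have hcd' := C_v hq hvG d j
  have hcy : LC (p j.succ) *ᵥ y = z c j.succ • v d := by
    rw [hy, Matrix.mulVec_mulVec, ha, ca, Matrix.neg_mulVec, ← Matrix.mulVec_mulVec, hcd',
      Matrix.mulVec_smul, Matrix.mulVec_mulVec, aa_same hq, Matrix.one_mulVec, hz, neg_smul,
      neg_neg]
  have e1 := E1 hr hrel j (v c) y
  have e2 := E2 hq hp hr hrel j (v c) y hXc hXy
  rw [← ha, hcc, hcy, hay, ← ha, ← ht, Bf_smul_left, Bf_smul_right] at e1 e2
  have hm := abs_lt.mp (hμ j)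
  rcases z_cases c j.succ with hz1 | hz1
  · rw [hz1] at e1 e2
    have h1 : (1 + μ j) * (Bf r t y - Bf r (v c) (v d)) = 0 := by linear_combination e1
    have h2 : (1 + μ j) * (Bf r t y + Bf r (v c) (v d)) = 0 := by linear_combination -e2
    have h3 : (1 + μ j) ≠ 0 := by linarith
    have h4 := (mul_eq_zero.mp h1).resolve_left h3
    have h5 := (mul_eq_zero.mp h2).resolve_left h3
    linarith
  · rw [hz1] at e1 e2
    have h1 : (1 - μ j) * (Bf r t y - Bf r (v c) (v d)) = 0 := by linear_combination e1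
    have h2 : (1 - μ j) * (Bf r t y + Bf r (v c) (v d)) = 0 := by linear_combination e2
    have h3 : (1 - μ j) ≠ 0 := by linarith
    have h4 := (mul_eq_zero.mp h1).resolve_left h3
    have h5 := (mul_eq_zero.mp h2).resolve_left h3
    linarith

/-- flipping a rotated mode -/
lemma bal_succ (hq : Ort q) (hp : Ort p)
    (hr : ∀ k s, r (fl k s) * (1 + z s k * l k) = r s * (1 - z s k * l k))
    (hrel : ∀ j k, l k * q (Fin.succ j) k = μ j * p (Fin.succ j) k)
    (hv : ∀ c d, ∑ s, v c s * v d s = if c = d then 1 else 0)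
    (hvG : ∀ c i, GG q p i *ᵥ v c = z c i • v c) (c : Om (n + 1)) (j : Fin n) :
    Bf r (v (fl 0 (fl j.succ c))) (v (fl 0 (fl j.succ c))) * (1 + z c j.succ * μ j)
      = Bf r (v c) (v c) * (1 - z c j.succ * μ j) := by
  set a := LA (q j.succ) with ha
  set y := a *ᵥ v c with hy
  have hXc := X_v hvG c
  have hXy : LA (q 0) *ᵥ y = (-z c 0) • y := X_A hq j (v c) hXc
  have hay : a *ᵥ y = v c := by
    rw [hy, Matrix.mulVec_mulVec, ha, aa_same hq, Matrix.one_mulVec]
  have hcc := C_v hq hvG c j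
  have hcy : LC (p j.succ) *ᵥ y = (-z c j.succ) • v c := by
    rw [hy, Matrix.mulVec_mulVec, ha, ca, Matrix.neg_mulVec, ← Matrix.mulVec_mulVec, hcc,
      Matrix.mulVec_smul, Matrix.mulVec_mulVec, aa_same hq, Matrix.one_mulVec, neg_smul]
  have e1 := E1 hr hrel j (v c) y
  rw [← ha, hcc, hcy, hay, ← ha, ← hy, Bf_smul_left, Bf_smul_right] at e1
  have hyG : ∀ i, GG q p i *ᵥ y = z (fl 0 (fl j.succ c)) i • y := by
    intro i
    refine Fin.cases ?_ (fun k => ?_) i
    · rw [GG_zero, hXy, z_fl_same, z_fl_ne (sz j)]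
    · rw [z_fl_ne (sz k).symm]
      by_cases hkj : k = j
      · subst hkj
        rw [z_fl_same, GG_succ, ← Matrix.mulVec_mulVec, hcy, Matrix.mulVec_smul]
      · have hne : k.succ ≠ j.succ := fun h => hkj (Fin.succ_injective _ h)
        rw [z_fl_ne hne, hy, GG_succ, Matrix.mulVec_mulVec, ha, ← a_G hq hne.symm,
          ← Matrix.mulVec_mulVec]
        have := hvG c k.succ
        rw [GG_succ] at this
        rw [this, Matrix.mulVec_smul]
  have hy1 : ∑ s, y s * y s = 1 := by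
    have h1 : y ⬝ᵥ y = v c ⬝ᵥ v c := by
      conv_lhs => rw [hy]
      rw [dot_symm (LA_transpose _), ← hy, hay]
    unfold dotProduct at h1
    rw [h1, hv c c, if_pos rfl]
  have hu := unique_up_to_sign (GG q p) GG_transpose v hv hvG (fl 0 (fl j.succ c)) y hyG hy1 r
  rw [← Bf_eq, ← Bf_eq] at hu
  rw [← hu]
  linear_combination e1

/-- flipping the position -/
lemma bal_zero (hq : Ort q) (hp : Ort p)
    (hr : ∀ k s, r (fl k s) * (1 + z s k * l k) = r s * (1 - z s k * l k))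
    (hrel : ∀ j k, l k * q (Fin.succ j) k = μ j * p (Fin.succ j) k)
    (hv : ∀ c d, ∑ s, v c s * v d s = if c = d then 1 else 0)
    (hvG : ∀ c i, GG q p i *ᵥ v c = z c i • v c) (c : Om (n + 1)) :
    Bf r (v (fl 0 c)) (v (fl 0 c)) = Bf r (v c) (v c) := by
  set y := LC (p 0) *ᵥ v c with hy
  have hXc := X_v hvG c
  have hXy : LA (q 0) *ᵥ y = (-z c 0) • y := by
    rw [hy, Matrix.mulVec_mulVec, ac, Matrix.neg_mulVec, ← Matrix.mulVec_mulVec, hXc,
      Matrix.mulVec_smul, neg_smul]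
  have hcy : LC (p 0) *ᵥ y = -v c := by
    rw [hy, Matrix.mulVec_mulVec, cc_same hp, Matrix.neg_mulVec, Matrix.one_mulVec]
  have e3 := E3 hq hp hr hrel (v c) y hXc hXy
  rw [hcy, ← hy] at e3
  have hneg : Bf r (v c) (-v c) = -Bf r (v c) (v c) := by
    have := Bf_smul_right r (v c) (v c) (-1)
    rw [neg_one_smul] at this
    linarith
  rw [hneg] at e3
  have hyG : ∀ i, GG q p i *ᵥ y = z (fl 0 c) i • y := by
    intro i
    refine Fin.cases ?_ (fun k => ?_) i
    · rw [GG_zero, hXy, z_fl_same]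
    · rw [z_fl_ne (sz k).symm, hy, GG_succ, Matrix.mulVec_mulVec, ← c_G hp (sz k),
          ← Matrix.mulVec_mulVec]
      have := hvG c k.succ
      rw [GG_succ] at this
      rw [this, Matrix.mulVec_smul]
  have hy1 : ∑ s, y s * y s = 1 := by
    have h1 : y ⬝ᵥ y = v c ⬝ᵥ v c := by
      have h2 := dot_anti (LC_transpose (p 0)) y (v c)
      rw [← hy, hcy, neg_dotProduct, neg_neg] at h2
      exact h2
    unfold dotProduct at h1
    rw [h1, hv c c, if_pos rfl]
  have hu := unique_up_to_sign (GG q p) GG_transpose v hv hvG (fl 0 c) y hyG hy1 r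
  rw [← Bf_eq, ← Bf_eq] at hu
  rw [← hu]
  linarith

/-- the eigenvalues of the dephased state -/
theorem diag_eq (hq : Ort q) (hp : Ort p)
    (hr : ∀ k s, r (fl k s) * (1 + z s k * l k) = r s * (1 - z s k * l k)) (hr1 : ∑ s, r s = 1)
    (hrel : ∀ j k, l k * q (Fin.succ j) k = μ j * p (Fin.succ j) k) (hμ : ∀ j, |μ j| < 1)
    (hv : ∀ c d, ∑ s, v c s * v d s = if c = d then 1 else 0)
    (hvG : ∀ c i, GG q p i *ᵥ v c = z c i • v c) (c : Om (n + 1)) :
    Bf r (v c) (v c) = pr (Fin.cons 0 μ : Fin (n + 1) → ℝ) c := by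
  refine eq_pr (ν := (Fin.cons 0 μ : Fin (n + 1) → ℝ)) ?_ (fun c => Bf r (v c) (v c)) ?_ ?_ c
  · intro k
    refine Fin.cases ?_ (fun j => ?_) k
    · simp
    · simpa using hμ j
  · intro k c
    refine Fin.cases ?_ (fun j => ?_) k
    · simp only [Fin.cons_zero, mul_zero, add_zero, sub_zero, mul_one]
      exact bal_zero hq hp hr hrel hv hvG c
    · simp only [Fin.cons_succ]
      have h1 := bal_succ hq hp hr hrel hv hvG c j
      rw [bal_zero hq hp hr hrel hv hvG] at h1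
      exact h1
  · have hcomp := Pool.Agent.H235R2.QLP.complete v hv
    simp_rw [Bf_eq]
    rw [Finset.sum_comm]
    simp_rw [← Finset.mul_sum, hcomp]
    simp [hr1]

end modes

end Pool.Agent.TH590.FF
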