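import Pool.Agent.TH590.FF.Cube
import Pool.Agent.H235R2.QLP.Basic

/-!
# The joint eigenbasis of rotated modes
-/

set_option autoImplicit false

open Finset Matrix

set_option linter.unusedSectionVars false
set_option linter.unusedVariables false

namespace Pool.Agent.TH590.FF

section ring

variable {R : Type} [Ring R]

lemma comm_anti_anti {u x y : R} (h1 : u * x = -(x * u)) (h2 : u * y = -(y * u)) :
    u * (x * y) = x * y * u := by
  rw [← mul_assoc, h1, neg_mul, mul_assoc, h2, mul_neg, neg_neg, mul_assoc]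

lemma comm_comm_comm {u x y : R} (h1 : u * x = x * u) (h2 : u * y = y * u) :
    u * (x * y) = x * y * u := by
  rw [← mul_assoc, h1, mul_assoc, h2, mul_assoc]

lemma anti_anti_comm {u x y : R} (h1 : u * x = -(x * u)) (h2 : u * y = y * u) :
    u * (x * y) = -(x * y * u) := by
  rw [← mul_assoc, h1, neg_mul, mul_assoc, h2, mul_assoc]

end ring

section joint

variable {Ω : Type} [Fintype Ω] [DecidableEq Ω] {N : ℕ}

/-- existence of joint eigenvectors with prescribed signs -/
lemma exists_joint [Nonempty Ω] (G F : Fin N → Matrix Ω Ω ℝ) (hG2 : ∀ i, G i * G i = 1)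
    (hGG : ∀ i j, G i * G j = G j * G i) (hF : ∀ i, ∃ F' : Matrix Ω Ω ℝ, F' * F i = 1)
    (hGF : ∀ i, G i * F i = -(F i * G i)) (hne : ∀ i j, i ≠ j → G j * F i = F i * G j)
    (c : Fin N → Bool) : ∃ v : Ω → ℝ, v ≠ 0 ∧ ∀ i, G i *ᵥ v = z c i • v := by
  have key : ∀ k : ℕ, k ≤ N → ∃ v : Ω → ℝ, v ≠ 0 ∧ ∀ i : Fin N, (i : ℕ) < k →
      G i *ᵥ v = z c i • v := by
    intro k
    induction k with
    | zero =>
      intro _
      refine ⟨fun _ => 1, ?_, fun i hi => absurd hi (Nat.not_lt_zero _)⟩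
      intro h
      obtain ⟨ω⟩ := ‹Nonempty Ω›
      have := congrFun h ω
      simp at this
    | succ k ih =>
      intro hk
      obtain ⟨v, hv0, hv⟩ := ih (by omega)
      set i0 : Fin N := ⟨k, by omega⟩ with hi0
      have hz := z_mul_self c i0
      by_cases hy : v + z c i0 • (G i0 *ᵥ v) = 0
      · have h1 : G i0 *ᵥ v = -(z c i0 • v) := by
          have h2 : z c i0 • (G i0 *ᵥ v) = -v := by
            rw [eq_neg_iff_add_eq_zero, add_comm]; exact hy
          have h3 := congrArg (fun y => z c i0 • y) h2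
          simp only [smul_smul, hz, one_smul, smul_neg] at h3
          exact h3
        refine ⟨F i0 *ᵥ v, ?_, ?_⟩
        · intro h0
          obtain ⟨F', hF'⟩ := hF i0
          apply hv0
          have := congrArg (fun y => F' *ᵥ y) h0
          simp only [Matrix.mulVec_mulVec, hF', Matrix.one_mulVec, Matrix.mulVec_zero] at this
          exact this
        · intro i hi
          rcases Nat.lt_succ_iff_lt_or_eq.mp hi with hlt | heq
          · have hii : i0 ≠ i := by
              intro h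
              rw [← h] at hlt
              simp [hi0] at hlt
            rw [Matrix.mulVec_mulVec, hne i0 i hii, ← Matrix.mulVec_mulVec, hv i hlt,
              Matrix.mulVec_smul]
          · have hii : i = i0 := Fin.ext heq
            subst hii
            rw [Matrix.mulVec_mulVec, hGF, Matrix.neg_mulVec, ← Matrix.mulVec_mulVec, h1,
              Matrix.mulVec_neg, neg_neg, Matrix.mulVec_smul]
      · refine ⟨_, hy, ?_⟩
        intro i hi
        rcases Nat.lt_succ_iff_lt_or_eq.mp hi with hlt | heq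
        · rw [Matrix.mulVec_add, Matrix.mulVec_smul, hv i hlt, Matrix.mulVec_mulVec, hGG,
            ← Matrix.mulVec_mulVec, hv i hlt, Matrix.mulVec_smul, smul_add, smul_comm]
        · have hii : i = i0 := Fin.ext heq
          subst hii
          rw [Matrix.mulVec_add, Matrix.mulVec_smul, Matrix.mulVec_mulVec, hG2,
            Matrix.one_mulVec, smul_add, smul_smul, hz, one_smul, add_comm]
  obtain ⟨v, h0, h⟩ := key N le_rfl
  exact ⟨v, h0, fun i => h i i.isLt⟩

lemma sum_sq_pos {v : Ω → ℝ} (h : v ≠ 0) : 0 < ∑ ω, v ω * v ω := by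
  obtain ⟨ω, hω⟩ := Function.ne_iff.mp h
  refine Finset.sum_pos' (fun _ _ => mul_self_nonneg _) ⟨ω, Finset.mem_univ _, ?_⟩
  exact mul_self_pos.mpr hω

lemma dot_symm {M : Matrix Ω Ω ℝ} (hM : Mᵀ = M) (x y : Ω → ℝ) :
    (M *ᵥ x) ⬝ᵥ y = x ⬝ᵥ (M *ᵥ y) := by
  rw [Matrix.dotProduct_mulVec, ← Matrix.mulVec_transpose, hM]

/-- joint eigenvectors with different signs are orthogonal -/
lemma dot_zero {G : Matrix Ω Ω ℝ} (hG : Gᵀ = G) {x y : Ω → ℝ} {a b : ℝ} (hx : G *ᵥ x = a • x)
    (hy : G *ᵥ y = b • y) (hab : a ≠ b) : x ⬝ᵥ y = 0 := by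
  have h := dot_symm hG x y
  rw [hx, hy, smul_dotProduct, dotProduct_smul, smul_eq_mul, smul_eq_mul] at h
  have h2 : (a - b) * (x ⬝ᵥ y) = 0 := by linear_combination h
  rcases mul_eq_zero.mp h2 with h3 | h3
  · exact absurd (sub_eq_zero.mp h3) hab
  · exact h3

lemma z_ne {c d : Fin N → Bool} {i : Fin N} (h : c i ≠ d i) : z c i ≠ z d i := by
  unfold z
  cases h1 : c i <;> cases h2 : d i <;> simp_all <;> norm_num

/-- orthonormal joint eigenbasis -/
lemma exists_basis (G F : Fin N → Matrix (Om N) (Om N) ℝ) (hG2 : ∀ i, G i * G i = 1)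
    (hGT : ∀ i, (G i)ᵀ = G i)
    (hGG : ∀ i j, G i * G j = G j * G i) (hF : ∀ i, ∃ F' : Matrix (Om N) (Om N) ℝ, F' * F i = 1)
    (hGF : ∀ i, G i * F i = -(F i * G i)) (hne : ∀ i j, i ≠ j → G j * F i = F i * G j) :
    ∃ v : Om N → Om N → ℝ, (∀ c d, ∑ s, v c s * v d s = if c = d then 1 else 0) ∧
      ∀ c i, G i *ᵥ v c = z c i • v c := by
  choose y hy0 hy using fun c => exists_joint G F hG2 hGG hF hGF hne c
  refine ⟨fun c => (√(∑ s, y c s * y c s))⁻¹ • y c, ?_, ?_⟩
  · intro c d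
    have hc := sum_sq_pos (hy0 c)
    by_cases hcd : c = d
    · subst hcd
      rw [if_pos rfl]
      simp only [Pi.smul_apply, smul_eq_mul]
      have e : ∀ s, (√(∑ s, y c s * y c s))⁻¹ * y c s * ((√(∑ s, y c s * y c s))⁻¹ * y c s)
          = ((√(∑ s, y c s * y c s))⁻¹ * (√(∑ s, y c s * y c s))⁻¹) * (y c s * y c s) :=
        fun s => by ring
      simp_rw [e]
      rw [← Finset.mul_sum, ← mul_inv, Real.mul_self_sqrt hc.le, inv_mul_cancel₀ hc.ne']
    · rw [if_neg hcd]
      obtain ⟨i, hi⟩ := Function.ne_iff.mp hcd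
      have h0 := dot_zero (hGT i) (hy c i) (hy d i) (z_ne hi)
      simp only [Pi.smul_apply, smul_eq_mul]
      have e : ∀ s, (√(∑ s, y c s * y c s))⁻¹ * y c s * ((√(∑ s, y d s * y d s))⁻¹ * y d s)
          = ((√(∑ s, y c s * y c s))⁻¹ * (√(∑ s, y d s * y d s))⁻¹) * (y c s * y d s) :=
        fun s => by ring
      simp_rw [e]
      rw [← Finset.mul_sum]
      unfold dotProduct at h0
      rw [h0, mul_zero]
  · intro c i
    rw [Matrix.mulVec_smul, hy c i, smul_comm]

/-- a joint eigenvector of unit length is determined up to sign by its signs -/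
lemma unique_up_to_sign (G : Fin N → Matrix (Om N) (Om N) ℝ) (hGT : ∀ i, (G i)ᵀ = G i)
    (v : Om N → Om N → ℝ) (hv : ∀ c d, ∑ s, v c s * v d s = if c = d then 1 else 0)
    (hvG : ∀ c i, G i *ᵥ v c = z c i • v c) (c : Om N) (y : Om N → ℝ)
    (hy : ∀ i, G i *ᵥ y = z c i • y) (hy1 : ∑ s, y s * y s = 1) (r : Om N → ℝ) :
    ∑ s, r s * (y s * y s) = ∑ s, r s * (v c s * v c s) := by
  have hcomp := Pool.Agent.H235R2.QLP.complete v hv
  have h0 : ∀ d, d ≠ c → ∑ s, v d s * y s = 0 := by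
    intro d hd
    obtain ⟨i, hi⟩ := Function.ne_iff.mp hd
    exact dot_zero (hGT i) (hvG d i) (hy i) (z_ne hi)
  set a : ℝ := ∑ s, v c s * y s with ha
  have hy2 : ∀ s, y s = a * v c s := by
    intro s
    have e1 : ∑ t, (∑ d, v d s * v d t) * y t = y s := by
      simp_rw [hcomp]
      simp
    rw [← e1]
    have e2 : ∑ t, (∑ d, v d s * v d t) * y t = ∑ d, v d s * ∑ t, v d t * y t := by
      simp_rw [Finset.sum_mul, Finset.mul_sum]
      rw [Finset.sum_comm]
      exact Finset.sum_congr rfl fun d _ => Finset.sum_congr rfl fun t _ => by ring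
    rw [e2, Finset.sum_eq_single c]
    · rw [ha, mul_comm]
    · intro d _ hd
      rw [h0 d hd, mul_zero]
    · simp
  have ha2 : a * a = 1 := by
    have h1 : ∑ s, y s * y s = (a * a) * ∑ s, v c s * v c s := by
      rw [Finset.mul_sum]
      exact Finset.sum_congr rfl fun s _ => by rw [hy2 s]; ring
    rw [hv c c, if_pos rfl, mul_one, hy1] at h1
    exact h1.symm
  refine Finset.sum_congr rfl fun s _ => ?_
  rw [hy2 s]
  linear_combination (r s * (v c s * v c s)) * ha2

end joint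

section modes

variable {n : ℕ}

/-- orthonormal rows -/
def Ort (q : Fin (n + 1) → Fin (n + 1) → ℝ) : Prop :=
  ∀ i j, ∑ k, q i k * q j k = if i = j then 1 else 0

lemma aa {q : Fin (n + 1) → Fin (n + 1) → ℝ} (hq : Ort q) {i j : Fin (n + 1)} (h : i ≠ j) :
    LA (q i) * LA (q j) = -(LA (q j) * LA (q i)) := by
  have := LA_LA (q i) (q j)
  rw [hq i j, if_neg h, mul_zero, zero_smul] at this
  exact eq_neg_of_add_eq_zero_left this

lemma aa_same {q : Fin (n + 1) → Fin (n + 1) → ℝ} (hq : Ort q) (i : Fin (n + 1)) :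
    LA (q i) * LA (q i) = 1 := by
  have := LA_LA (q i) (q i)
  rw [hq i i, if_pos rfl, mul_one, ← two_smul ℝ (LA (q i) * LA (q i))] at this
  have h2 := congrArg (fun M => (2⁻¹ : ℝ) • M) this
  simp only [smul_smul] at h2
  norm_num at h2
  exact h2

lemma cc' {p : Fin (n + 1) → Fin (n + 1) → ℝ} (hp : Ort p) {i j : Fin (n + 1)} (h : i ≠ j) :
    LC (p i) * LC (p j) = -(LC (p j) * LC (p i)) := by
  have := LC_LC (p i) (p j)
  rw [hp i j, if_neg h, mul_zero, neg_zero, zero_smul] at this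
  exact eq_neg_of_add_eq_zero_left this

lemma cc_same {p : Fin (n + 1) → Fin (n + 1) → ℝ} (hp : Ort p) (i : Fin (n + 1)) :
    LC (p i) * LC (p i) = -1 := by
  have := LC_LC (p i) (p i)
  rw [hp i i, if_pos rfl, mul_one, ← two_smul ℝ (LC (p i) * LC (p i))] at this
  have h2 := congrArg (fun M => (2⁻¹ : ℝ) • M) this
  simp only [smul_smul] at h2
  norm_num at h2
  exact h2

lemma ac (a c : Fin (n + 1) → ℝ) : LA a * LC c = -(LC c * LA a) :=
  eq_neg_of_add_eq_zero_left (LA_LC a c)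

lemma ca (a c : Fin (n + 1) → ℝ) : LC c * LA a = -(LA a * LC c) := by
  rw [ac, neg_neg]

/-- the commuting involutions -/
noncomputable def GG (q p : Fin (n + 1) → Fin (n + 1) → ℝ) :
    Fin (n + 1) → Matrix (Om (n + 1)) (Om (n + 1)) ℝ :=
  Fin.cases (LA (q 0)) fun l => LA (q l.succ) * LC (p l.succ)

/-- the flipping operators -/
noncomputable def FL (q p : Fin (n + 1) → Fin (n + 1) → ℝ) :
    Fin (n + 1) → Matrix (Om (n + 1)) (Om (n + 1)) ℝ :=
  Fin.cases (LC (p 0)) fun l => LA (q l.succ) * LC (p 0)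

@[simp] lemma GG_zero (q p : Fin (n + 1) → Fin (n + 1) → ℝ) : GG q p 0 = LA (q 0) := rfl
@[simp] lemma GG_succ (q p : Fin (n + 1) → Fin (n + 1) → ℝ) (l : Fin n) :
    GG q p l.succ = LA (q l.succ) * LC (p l.succ) := rfl
@[simp] lemma FL_zero (q p : Fin (n + 1) → Fin (n + 1) → ℝ) : FL q p 0 = LC (p 0) := rfl
@[simp] lemma FL_succ (q p : Fin (n + 1) → Fin (n + 1) → ℝ) (l : Fin n) :
    FL q p l.succ = LA (q l.succ) * LC (p 0) := rfl

variable {q p : Fin (n + 1) → Fin (n + 1) → ℝ}

lemma sz (l : Fin n) : (0 : Fin (n + 1)) ≠ l.succ := (Fin.succ_ne_zero l).symm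

/-- `a i` commutes with `a j c j` -/
lemma a_G (hq : Ort q) {i j : Fin (n + 1)} (h : i ≠ j) :
    LA (q i) * (LA (q j) * LC (p j)) = LA (q j) * LC (p j) * LA (q i) :=
  comm_anti_anti (aa hq h) (ac _ _)

/-- `c i` commutes with `a j c j` -/
lemma c_G (hp : Ort p) {i j : Fin (n + 1)} (h : i ≠ j) :
    LC (p i) * (LA (q j) * LC (p j)) = LA (q j) * LC (p j) * LC (p i) :=
  comm_anti_anti (ca _ _) (cc' hp h)

lemma GG_sq (hq : Ort q) (hp : Ort p) (i : Fin (n + 1)) : GG q p i * GG q p i = 1 := by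
  refine Fin.cases ?_ (fun l => ?_) i
  · rw [GG_zero, aa_same hq]
  · rw [GG_succ]
    calc LA (q l.succ) * LC (p l.succ) * (LA (q l.succ) * LC (p l.succ))
        = LA (q l.succ) * (LC (p l.succ) * LA (q l.succ)) * LC (p l.succ) := by noncomm_ring
      _ = -((LA (q l.succ) * LA (q l.succ)) * (LC (p l.succ) * LC (p l.succ))) := by
          rw [ca]; noncomm_ring
      _ = 1 := by rw [aa_same hq, cc_same hp]; noncomm_ring

lemma GG_transpose (i : Fin (n + 1)) : (GG q p i)ᵀ = GG q p i := by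
  refine Fin.cases ?_ (fun l => ?_) i
  · rw [GG_zero, LA_transpose]
  · rw [GG_succ, Matrix.transpose_mul, LA_transpose, LC_transpose, neg_mul, ca, neg_neg]

lemma GG_comm (hq : Ort q) (hp : Ort p) (i j : Fin (n + 1)) :
    GG q p i * GG q p j = GG q p j * GG q p i := by
  refine Fin.cases ?_ (fun k => ?_) i
  · refine Fin.cases rfl (fun l => ?_) j
    rw [GG_zero, GG_succ, a_G hq (sz l)]
  · refine Fin.cases ?_ (fun l => ?_) j
    · rw [GG_zero, GG_succ, a_G hq (sz k)]
    · by_cases hkl : k = l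
      · subst hkl; rfl
      · have hne : l.succ ≠ k.succ := fun h => hkl (Fin.succ_injective _ h).symm
        rw [GG_succ, GG_succ]
        exact comm_comm_comm (a_G hq hne).symm (c_G hp hne).symm

lemma FL_inv (hq : Ort q) (hp : Ort p) (i : Fin (n + 1)) :
    ∃ F' : Matrix (Om (n + 1)) (Om (n + 1)) ℝ, F' * FL q p i = 1 := by
  refine Fin.cases ?_ (fun l => ?_) i
  · refine ⟨-LC (p 0), ?_⟩
    rw [FL_zero, neg_mul, cc_same hp, neg_neg]
  · refine ⟨LA (q l.succ) * LC (p 0), ?_⟩
    rw [FL_succ]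
    calc LA (q l.succ) * LC (p 0) * (LA (q l.succ) * LC (p 0))
        = LA (q l.succ) * (LC (p 0) * LA (q l.succ)) * LC (p 0) := by noncomm_ring
      _ = -((LA (q l.succ) * LA (q l.succ)) * (LC (p 0) * LC (p 0))) := by
          rw [ca]; noncomm_ring
      _ = 1 := by rw [aa_same hq, cc_same hp]; noncomm_ring

lemma GG_FL (hq : Ort q) (hp : Ort p) (i : Fin (n + 1)) :
    GG q p i * FL q p i = -(FL q p i * GG q p i) := by
  refine Fin.cases ?_ (fun l => ?_) i
  · rw [GG_zero, FL_zero, ac]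
  · rw [GG_succ, FL_succ]
    have h1 : LA (q l.succ) * LC (p l.succ) * LA (q l.succ)
        = -(LA (q l.succ) * (LA (q l.succ) * LC (p l.succ))) := by
      rw [mul_assoc, ca]; noncomm_ring
    exact anti_anti_comm h1 (c_G hp (sz l)).symm

lemma GG_FL_ne (hq : Ort q) (hp : Ort p) (i j : Fin (n + 1)) (hij : i ≠ j) :
    GG q p j * FL q p i = FL q p i * GG q p j := by
  revert hij
  refine Fin.cases ?_ (fun k => ?_) i
  · refine Fin.cases (fun h => absurd rfl h) (fun l _ => ?_) j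
    rw [GG_succ, FL_zero, c_G hp (sz l)]
  · refine Fin.cases (fun _ => ?_) (fun l h => ?_) j
    · rw [GG_zero, FL_succ]
      exact comm_anti_anti (aa hq (sz k)) (ac _ _)
    · rw [GG_succ, FL_succ]
      exact comm_comm_comm (a_G hq h).symm (c_G hp (sz l)).symm

/-- the Fock basis of the rotated modes -/
theorem fock (hq : Ort q) (hp : Ort p) :
    ∃ v : Om (n + 1) → Om (n + 1) → ℝ, (∀ c d, ∑ s, v c s * v d s = if c = d then 1 else 0) ∧
      ∀ c i, GG q p i *ᵥ v c = z c i • v c :=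
  exists_basis (GG q p) (FL q p) (GG_sq hq hp) GG_transpose (GG_comm hq hp) (FL_inv hq hp)
    (GG_FL hq hp) (GG_FL_ne hq hp)

end modes

end Pool.Agent.TH590.FF
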