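import Pool.Agent.TH590.FF.LinAlg

/-!
# The entropy as an integral
-/

set_option autoImplicit false
set_option linter.unusedVariables false

open Finset Filter MeasureTheory
open scoped Topology

namespace Pool.Agent.TH590.FF

open Pool.Agent.H390R2.LP Pool.Agent.H235R2.QLP

/-- `(1 + m s) log (1 + m s) + (1 - m s) log (1 - m s)` -/
noncomputable def Nu (m s : ℝ) : ℝ :=
  (1 + m * s) * Real.log (1 + m * s) + (1 - m * s) * Real.log (1 - m * s)

lemma Nu_cont (m : ℝ) : Continuous (Nu m) := by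
  unfold Nu
  have h := Real.continuous_mul_log
  exact (h.comp (by fun_prop : Continuous fun s : ℝ => 1 + m * s)).add
    (h.comp (by fun_prop : Continuous fun s : ℝ => 1 - m * s))

lemma Nu_zero (m : ℝ) : Nu m 0 = 0 := by simp [Nu]

lemma Nu_deriv {m s : ℝ} (h1 : 0 < 1 + m * s) (h2 : 0 < 1 - m * s) :
    HasDerivAt (Nu m) (m * Real.log (1 + m * s) - m * Real.log (1 - m * s)) s := by
  have d1 : HasDerivAt (fun s : ℝ => 1 + m * s) m s := by
    simpa using ((hasDerivAt_id s).const_mul m).const_add 1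
  have d2 : HasDerivAt (fun s : ℝ => 1 - m * s) (-m) s := by
    simpa using ((hasDerivAt_id s).const_mul m).const_sub 1
  have e1 := (d1.mul (d1.log h1.ne'))
  have e2 := (d2.mul (d2.log h2.ne'))
  have e3 := e1.add e2
  refine e3.congr_deriv ?_
  field_simp
  ring

lemma quot_deriv {m s : ℝ} (h0 : 0 < m) (hm : m ≤ 1) (hs0 : 0 < s) (hs1 : s < 1) :
    HasDerivAt (fun s => Nu m s / s) (-Real.log (1 - m ^ 2 * s ^ 2) / s ^ 2) s := by
  have hms : m * s < 1 := by nlinarith
  have hms0 : 0 < m * s := by positivity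
  have h1 : 0 < 1 + m * s := by linarith
  have h2 : 0 < 1 - m * s := by linarith
  have h := (Nu_deriv h1 h2).div (hasDerivAt_id s) hs0.ne'
  refine h.congr_deriv ?_
  have e : 1 - m ^ 2 * s ^ 2 = (1 + m * s) * (1 - m * s) := by ring
  rw [e, Real.log_mul h1.ne' h2.ne']
  simp only [id, Nu]
  congr 1
  ring

lemma quot_cont (m : ℝ) : Continuous (fun s => Nu m s / s) := by
  rw [continuous_iff_continuousAt]
  intro s
  by_cases hs : s = 0
  · subst hs
    rw [continuousAt_iff_punctured_nhds]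
    have h1 : HasDerivAt (Nu m) 0 0 := by
      have := Nu_deriv (m := m) (s := 0) (by simp) (by simp)
      simpa using this
    have h2 := hasDerivAt_iff_tendsto_slope.mp h1
    have e : (fun s => Nu m s / s) = slope (Nu m) 0 := by
      funext s
      rw [slope_def_field, Nu_zero, sub_zero, sub_zero]
    rw [e]
    simpa [slope_def_field, Nu_zero] using h2
  · exact (Nu_cont m).continuousAt.div continuousAt_id hs

lemma log_neg_int {m : ℝ} (h0 : 0 < m) (hm : m ≤ 1) :
    IntervalIntegrable (fun s : ℝ => -Real.log (1 - m ^ 2 * s ^ 2) / s ^ 2) volume 0 1 := by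
  apply intervalIntegral.intervalIntegrable_deriv_of_nonneg (g := fun s => Nu m s / s)
  · exact (quot_cont m).continuousOn
  · intro x hx
    rw [min_eq_left zero_le_one, max_eq_right zero_le_one] at hx
    exact quot_deriv h0 hm hx.1 hx.2
  · intro x hx
    rw [min_eq_left zero_le_one, max_eq_right zero_le_one] at hx
    have h1 : m ^ 2 * x ^ 2 < 1 := by
      have : m * x < 1 := by nlinarith [hx.1, hx.2]
      have h3 : 0 < m * x := mul_pos h0 hx.1
      nlinarith
    have h2 : Real.log (1 - m ^ 2 * x ^ 2) ≤ 0 := by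
      apply Real.log_nonpos (by linarith)
      have : 0 ≤ m ^ 2 * x ^ 2 := by positivity
      linarith
    exact div_nonneg (by linarith) (sq_nonneg x)

lemma log_neg_val {m : ℝ} (h0 : 0 < m) (hm : m ≤ 1) :
    ∫ s in (0 : ℝ)..1, -Real.log (1 - m ^ 2 * s ^ 2) / s ^ 2 = Nu m 1 := by
  rw [intervalIntegral.integral_eq_sub_of_hasDerivAt_of_le (f := fun s => Nu m s / s) zero_le_one
    (quot_cont m).continuousOn (fun x hx => quot_deriv h0 hm hx.1 hx.2) (log_neg_int h0 hm)]
  simp

lemma int_log {t : ℝ} (h0 : 0 ≤ t) (h1 : t ≤ 1) :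
    IntervalIntegrable (fun s : ℝ => Real.log (1 - t * s ^ 2) / s ^ 2) volume 0 1 := by
  rcases h0.eq_or_lt with h | h
  · rw [← h]
    simp
  · have hm := log_neg_int (Real.sqrt_pos.mpr h) (Real.sqrt_le_one.mpr h1)
    rw [Real.sq_sqrt h0] at hm
    have := hm.neg
    refine this.congr ?_
    intro s _
    show -(-Real.log (1 - t * s ^ 2) / s ^ 2) = _
    ring

lemma en_int {t : ℝ} (h0 : 0 ≤ t) (h1 : t ≤ 1) :
    en (√t) = Real.log 2 + 1 / 2 * ∫ s in (0 : ℝ)..1, Real.log (1 - t * s ^ 2) / s ^ 2 := by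
  rcases h0.eq_or_lt with h | h
  · rw [← h]
    simp only [Real.sqrt_zero, zero_mul, sub_zero, Real.log_one, zero_div,
      intervalIntegral.integral_zero, mul_zero, add_zero]
    unfold en Real.negMulLog
    rw [add_zero, sub_zero, one_div, Real.log_inv]
    ring
  · set m := √t with hm
    have hm0 : 0 < m := Real.sqrt_pos.mpr h
    have hm1 : m ≤ 1 := Real.sqrt_le_one.mpr h1
    have hm2 : m ^ 2 = t := Real.sq_sqrt h0
    have e : ∫ s in (0 : ℝ)..1, Real.log (1 - t * s ^ 2) / s ^ 2 = -Nu m 1 := by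
      rw [← log_neg_val hm0 hm1, ← intervalIntegral.integral_neg]
      apply intervalIntegral.integral_congr
      intro s _
      show Real.log (1 - t * s ^ 2) / s ^ 2 = -(-Real.log (1 - m ^ 2 * s ^ 2) / s ^ 2)
      rw [hm2]
      ring
    rw [e]
    unfold Nu en
    simp only [mul_one]
    have f1 : Real.negMulLog ((1 + m) / 2)
        = (1 + m) / 2 * Real.log 2 - 1 / 2 * ((1 + m) * Real.log (1 + m)) := by
      unfold Real.negMulLog
      rw [Real.log_div (by linarith) two_ne_zero]
      ring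
    have f2 : Real.negMulLog ((1 - m) / 2)
        = (1 - m) / 2 * Real.log 2 - 1 / 2 * ((1 - m) * Real.log (1 - m)) := by
      unfold Real.negMulLog
      rcases hm1.eq_or_lt with h2 | h2
      · rw [h2]; simp
      · rw [Real.log_div (by linarith) two_ne_zero]
        ring
    rw [f1, f2]
    ring

/-- the functional `∫₀¹ log (∑ w_j / (1 - t_j s²)) ds / s²` -/
noncomputable def JF {n : ℕ} (w t : Fin n → ℝ) : ℝ :=
  ∫ s in (0 : ℝ)..1, Real.log (∑ j, w j / (1 - t j * s ^ 2)) / s ^ 2

/-- The site of a finitely supported distribution, with the information as an integral. -/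
theorem exists_site_JF (n : ℕ) (w t : Fin (n + 1) → ℝ) (hw : ∀ j, 0 ≤ w j) (hsum : ∑ j, w j = 1)
    (ht0 : ∀ j, 0 < t j) (ht1 : ∀ j, t j < 1) :
    ∃ s : Site (Om (n + 1)) (Fin 2), cc s = 1 / 2 * JF w t ∧
      EH s = 1 / 2 * (1 - ∑ k, w k * √(1 - t k)) := by
  obtain ⟨s, x, hx, hs1, hs2, hdet⟩ := exists_site' n w t hw hsum ht0 ht1
  refine ⟨s, ?_, hs2⟩
  rw [hs1]
  have h1 : ∀ j, en (√(x j)) = Real.log 2
      + 1 / 2 * ∫ s in (0 : ℝ)..1, Real.log (1 - x j * s ^ 2) / s ^ 2 :=
    fun j => en_int (hx j).1.le (hx j).2.le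
  have h2 : ∀ j, en (√(t j)) = Real.log 2
      + 1 / 2 * ∫ s in (0 : ℝ)..1, Real.log (1 - t j * s ^ 2) / s ^ 2 :=
    fun j => en_int (ht0 j).le (ht1 j).le
  simp_rw [h1, h2, Finset.sum_add_distrib, ← Finset.mul_sum, Finset.sum_const, Finset.card_univ,
    Fintype.card_fin, nsmul_eq_mul]
  have key : JF w t = ∑ j, (∫ s in (0 : ℝ)..1, Real.log (1 - x j * s ^ 2) / s ^ 2)
      - ∑ j, ∫ s in (0 : ℝ)..1, Real.log (1 - t j * s ^ 2) / s ^ 2 := by
    unfold JF
    rw [← intervalIntegral.integral_finsetSum fun i _ => int_log (hx i).1.le (hx i).2.le,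
      ← intervalIntegral.integral_finsetSum fun i _ => int_log (ht0 i).le (ht1 i).le,
      ← intervalIntegral.integral_sub]
    · apply intervalIntegral.integral_congr
      intro s hs
      rw [Set.uIcc_of_le zero_le_one] at hs
      have hs2 : s ^ 2 ≤ 1 := by nlinarith [hs.1, hs.2]
      have hs3 : 0 ≤ s ^ 2 := sq_nonneg s
      have hd := hdet (s ^ 2) hs3 hs2
      have hpos : ∀ j, 0 < 1 - t j * s ^ 2 := fun j => by nlinarith [ht0 j, ht1 j]
      have hpos' : ∀ i, 0 < 1 - x i * s ^ 2 := fun i => by nlinarith [(hx i).1, (hx i).2]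
      have hR : 0 < ∑ j, w j / (1 - t j * s ^ 2) := by
        obtain ⟨j0, -, hj0⟩ : ∃ j ∈ univ, 0 < w j := by
          by_contra hcon
          push Not at hcon
          have : ∑ j, w j ≤ 0 := Finset.sum_nonpos hcon
          linarith
        exact Finset.sum_pos' (fun j _ => div_nonneg (hw j) (hpos j).le)
          ⟨j0, Finset.mem_univ _, div_pos hj0 (hpos j0)⟩
      have e1 : (∑ j, w j / (1 - t j * s ^ 2)) * ∏ j, (1 - t j * s ^ 2)
          = ∏ i, (1 - x i * s ^ 2) := by
        have e2 : ∀ y : ℝ, 1 - s ^ 2 * y = 1 - y * s ^ 2 := fun y => by ring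
        simp_rw [e2] at hd
        exact hd
      show Real.log (∑ j, w j / (1 - t j * s ^ 2)) / s ^ 2
        = ∑ i, Real.log (1 - x i * s ^ 2) / s ^ 2 - ∑ j, Real.log (1 - t j * s ^ 2) / s ^ 2
      rw [← Finset.sum_div, ← Finset.sum_div, ← sub_div]
      congr 1
      rw [← Real.log_prod fun i _ => (hpos' i).ne', ← e1, Real.log_mul hR.ne'
        (Finset.prod_pos fun j _ => hpos j).ne', Real.log_prod fun i _ => (hpos i).ne']
      ring
    · have := IntervalIntegrable.sum univ fun i _ => int_log (hx i).1.le (hx i).2.le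
      simpa only [Finset.sum_fn] using this
    · have := IntervalIntegrable.sum univ fun i _ => int_log (ht0 i).le (ht1 i).le
      simpa only [Finset.sum_fn] using this
  rw [key]
  push_cast
  ring

end Pool.Agent.TH590.FF
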