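import Pool.Agent.TH590.FF.Deph

/-!
# The site of a free-fermion state: entropies and energy
-/

set_option autoImplicit false

open Finset Matrix

set_option linter.unusedSectionVars false
set_option linter.unusedVariables false

namespace Pool.Agent.TH590.FF

open Pool.Agent.H390R2.LP Pool.Agent.H235R2.QLP

/-- entropy of the distribution `(1 ± m) / 2` (natural logarithm) -/
noncomputable def en (m : ℝ) : ℝ := Real.negMulLog ((1 + m) / 2) + Real.negMulLog ((1 - m) / 2)

lemma sum_cons {N : ℕ} (f : Om (N + 1) → ℝ) :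
    ∑ s : Om (N + 1), f s = ∑ b : Bool, ∑ s' : Om N, f (Fin.cons b s') := by
  rw [← (Fin.consEquiv fun _ : Fin (N + 1) => Bool).sum_comp f, Fintype.sum_prod_type]
  rfl

lemma pr_cons {N : ℕ} (ν : Fin (N + 1) → ℝ) (b : Bool) (s' : Om N) :
    pr ν (Fin.cons b s') = (1 + (if b then 1 else -1) * ν 0) / 2 * pr (fun k => ν k.succ) s' := by
  unfold pr
  rw [Fin.prod_univ_succ]
  rfl

/-- the entropy of a product distribution -/
lemma ent_pr {N : ℕ} (ν : Fin N → ℝ) :
    ∑ s : Om N, Real.negMulLog (pr ν s) = ∑ k, en (ν k) := by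
  induction N with
  | zero =>
    simp [pr]
  | succ N ih =>
    rw [sum_cons, Fin.sum_univ_succ]
    simp_rw [pr_cons, Real.negMulLog_mul, Finset.sum_add_distrib, ← Finset.sum_mul,
      ← Finset.mul_sum, ih, sum_pr]
    rw [Fintype.sum_bool, Fintype.sum_bool]
    unfold en
    simp only [if_true, one_mul, Bool.false_eq_true, if_false, neg_mul, ← sub_eq_add_neg]
    ring

section energy

variable {N : ℕ}

/-- the affinity of a product distribution with its flip -/
lemma sum_sqrt {ν : Fin N → ℝ} (hν : ∀ k, |ν k| ≤ 1) (k : Fin N) :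
    ∑ s, √(pr ν s * pr ν (fl k s)) = √(1 - ν k ^ 2) := by
  have hpos : ∀ (b : Bool) (j : Fin N), 0 ≤ (1 + (if b then (1 : ℝ) else -1) * ν j) / 2 := by
    intro b j
    have h := abs_le.mp (hν j)
    cases b <;> simp <;> linarith [h.1, h.2]
  have h1 : ∀ s : Om N, √(pr ν s * pr ν (fl k s))
      = ∏ j, (fun (j : Fin N) (b : Bool) => if j = k then √(1 - ν k ^ 2) / 2
          else (1 + (if b then (1 : ℝ) else -1) * ν j) / 2) j (s j) := by
    intro s
    have e1 : pr ν s * pr ν (fl k s) = (∏ j, (fun (j : Fin N) (b : Bool) =>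
        if j = k then √(1 - ν k ^ 2) / 2
          else (1 + (if b then (1 : ℝ) else -1) * ν j) / 2) j (s j)) ^ 2 := by
      unfold pr
      rw [← Finset.prod_mul_distrib, ← Finset.prod_pow]
      refine Finset.prod_congr rfl fun j _ => ?_
      by_cases hj : j = k
      · subst hj
        simp only [if_true]
        rw [z_fl_same, div_pow, Real.sq_sqrt]
        · have := z_mul_self s j
          linear_combination (-(ν j ^ 2) / 4) * this
        · have h := abs_le.mp (hν j)
          nlinarith [h.1, h.2]
      · simp only [if_neg hj]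
        rw [z_fl_ne hj, sq]
        rfl
    rw [e1, Real.sqrt_sq]
    refine Finset.prod_nonneg fun j _ => ?_
    by_cases hj : j = k
    · simp only [if_pos hj]
      positivity
    · simp only [if_neg hj]
      exact hpos _ _
  rw [Finset.sum_congr rfl fun s _ => h1 s]
  refine (sum_prod (fun (j : Fin N) (b : Bool) => if j = k then √(1 - ν k ^ 2) / 2
          else (1 + (if b then (1 : ℝ) else -1) * ν j) / 2)).trans ?_
  rw [← Finset.mul_prod_erase univ _ (Finset.mem_univ k)]
  rw [Finset.prod_eq_one]
  · simp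
  · intro j hj
    rw [Finset.mem_erase] at hj
    simp only [if_neg hj.1, if_true]
    simp
    ring

/-- row sums of squares of `∑ a k A k` -/
lemma sum_LA_sq (a : Fin N → ℝ) (f : Om N → ℝ) (s : Om N) :
    ∑ t, f t * LA a s t ^ 2 = ∑ k, a k ^ 2 * f (fl k s) := by
  have h1 : ∀ t, LA a s t = ∑ k, if t = fl k s then a k * chi k s else 0 := by
    intro t
    unfold LA
    rw [Matrix.sum_apply]
    refine Finset.sum_congr rfl fun k _ => ?_
    simp [A]
  have h2 : ∀ t, LA a s t ^ 2 = ∑ k, if t = fl k s then a k ^ 2 else 0 := by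
    intro t
    rw [h1 t, sq, Finset.sum_mul_sum]
    refine Finset.sum_congr rfl fun k _ => ?_
    by_cases hk : t = fl k s
    · rw [Finset.sum_eq_single k]
      · rw [if_pos hk, if_pos hk]
        have := chi_mul_self k s
        linear_combination a k ^ 2 * this
      · intro j _ hj
        rw [if_neg (c := t = fl j s), mul_zero]
        intro h
        exact hj (fl_inj (h.symm.trans hk))
      · simp
    · simp [hk]
  simp_rw [h2, Finset.mul_sum]
  rw [Finset.sum_comm]
  refine Finset.sum_congr rfl fun k _ => ?_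
  rw [Finset.sum_eq_single (fl k s)]
  · simp; ring
  · intro t _ ht
    rw [if_neg ht, mul_zero]
  · simp

end energy

section site

variable {n : ℕ} {q p : Fin (n + 1) → Fin (n + 1) → ℝ} {l : Fin (n + 1) → ℝ} {μ : Fin n → ℝ}

/-- The site of a free-fermion state. -/
theorem exists_site (hq : Ort q) (hp : Ort p) (hl : ∀ k, |l k| < 1) (hμ : ∀ j, |μ j| < 1)
    (hrel : ∀ j k, l k * q (Fin.succ j) k = μ j * p (Fin.succ j) k) :
    ∃ s : Site (Om (n + 1)) (Fin 2),
      cc s = Real.log 2 + ∑ j, en (μ j) - ∑ k, en (l k) ∧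
      EH s = 1 / 2 * (1 - ∑ k, q 0 k ^ 2 * √(1 - l k ^ 2)) := by
  obtain ⟨v, hv, hvG⟩ := fock hq hp
  have hcomp := Pool.Agent.H235R2.QLP.complete v hv
  set r : Om (n + 1) → ℝ := pr l with hr
  have hbal : ∀ k s, r (fl k s) * (1 + z s k * l k) = r s * (1 - z s k * l k) :=
    fun k s => pr_fl l k s
  have hr1 : ∑ s, r s = 1 := sum_pr l
  have hr0 : ∀ s, 0 ≤ r s := fun s => (pr_pos hl s).le
  set X : Matrix (Om (n + 1)) (Om (n + 1)) ℝ := LA (q 0) with hX
  set s : Site (Om (n + 1)) (Fin 2) :=
    { pos := fun ω => if ω 0 then 0 else 1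
      u := fun a ω => v ω a
      w := fun c ω => if c = ω then 1 else 0
      lam := r
      g := pr (Fin.cons 0 μ : Fin (n + 1) → ℝ)
      lab := fun ω => if ω 0 then 0 else 1
      u_orth := hcomp
      w_orth := by intro a b; simp
      lam_nonneg := hr0
      lam_sum := hr1
      w_supp := by
        intro c ω h
        rw [if_neg]
        rintro rfl
        exact h rfl
      w_diag := by
        intro c c' h
        have e : ∑ a, r a * (∑ ω, v ω a * if c = ω then (1 : ℝ) else 0)
            * (∑ ω, v ω a * if c' = ω then (1 : ℝ) else 0) = Bf r (v c) (v c') := by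
          rw [Bf_eq]
          refine Finset.sum_congr rfl fun a _ => ?_
          simp
          ring
        rw [e]
        by_cases hcc : c = c'
        · subst hcc
          rw [if_pos rfl]
          exact diag_eq hq hp hbal hr1 hrel hμ hv hvG c
        · rw [if_neg hcc]
          refine off_diag hq hp hbal hrel hμ hvG ?_ hcc
          cases h1 : c 0 <;> cases h2 : c' 0 <;> simp_all } with hs
  refine ⟨s, ?_, ?_⟩
  · have h1 : s.S = ∑ k, en (l k) := ent_pr l
    have h2 : s.h = Real.log 2 + ∑ j, en (μ j) := by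
      have : s.h = ∑ k, en ((Fin.cons 0 μ : Fin (n + 1) → ℝ) k) := ent_pr _
      rw [this, Fin.sum_univ_succ]
      simp only [Fin.cons_zero, Fin.cons_succ]
      congr 1
      unfold en Real.negMulLog
      rw [show (1 + (0 : ℝ)) / 2 = 2⁻¹ by norm_num, show (1 - (0 : ℝ)) / 2 = 2⁻¹ by norm_num,
        Real.log_inv]
      ring
    unfold cc
    rw [h1, h2]
  · have hXX : ∀ a b, ∑ ω, z ω 0 * (v ω a * v ω b) = X a b := by
      intro a b
      have e1 : ∀ ω, z ω 0 * v ω a = ∑ t, X a t * v ω t := by
        intro ω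
        have := congrFun (X_v hvG ω) a
        simp only [Pi.smul_apply, smul_eq_mul] at this
        rw [← this]
        rfl
      calc ∑ ω, z ω 0 * (v ω a * v ω b) = ∑ ω, (∑ t, X a t * v ω t) * v ω b :=
            Finset.sum_congr rfl fun ω _ => by rw [← e1]; ring
        _ = ∑ t, X a t * ∑ ω, v ω t * v ω b := by
            simp_rw [Finset.sum_mul, Finset.mul_sum]
            rw [Finset.sum_comm]
            exact Finset.sum_congr rfl fun _ _ => Finset.sum_congr rfl fun _ _ => by ring
        _ = X a b := by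
            simp_rw [hcomp]
            simp
    have hG : ∑ x, G s x = ∑ a, ∑ b, √(r a * r b) * (1 / 2 * ((if a = b then 1 else 0) ^ 2
        + X a b ^ 2)) := by
      unfold G
      rw [Finset.sum_comm]
      refine Finset.sum_congr rfl fun a _ => ?_
      rw [Finset.sum_comm]
      refine Finset.sum_congr rfl fun b _ => ?_
      rw [← Finset.mul_sum]
      congr 1
      rw [Fin.sum_univ_two]
      have e0 : (∑ ω, if s.pos ω = 0 then s.u a ω * s.u b ω else 0)
          = 1 / 2 * ((if a = b then 1 else 0) + X a b) := by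
        rw [← hXX a b, ← hcomp a b, ← Finset.sum_add_distrib, Finset.mul_sum]
        refine Finset.sum_congr rfl fun ω _ => ?_
        simp only [hs, z]
        cases h : ω 0 <;> simp
        ring
      have e1 : (∑ ω, if s.pos ω = 1 then s.u a ω * s.u b ω else 0)
          = 1 / 2 * ((if a = b then 1 else 0) - X a b) := by
        rw [← hXX a b, ← hcomp a b, ← Finset.sum_sub_distrib, Finset.mul_sum]
        refine Finset.sum_congr rfl fun ω _ => ?_
        simp only [hs, z]
        cases h : ω 0 <;> simp
        ring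
      rw [e0, e1]
      ring
    have h3 : ∑ a, ∑ b, √(r a * r b) * (1 / 2 * ((if a = b then (1 : ℝ) else 0) ^ 2 + X a b ^ 2))
        = 1 / 2 * (1 + ∑ k, q 0 k ^ 2 * √(1 - l k ^ 2)) := by
      have e1 : ∀ a, ∑ b, √(r a * r b) * (1 / 2 * ((if a = b then (1 : ℝ) else 0) ^ 2
          + X a b ^ 2)) = 1 / 2 * (r a + ∑ k, q 0 k ^ 2 * √(r a * r (fl k a))) := by
        intro a
        have e2 := sum_LA_sq (q 0) (fun t => √(r a * r t)) a
        have e3 : ∑ b, √(r a * r b) * (if a = b then (1 : ℝ) else 0) ^ 2 = r a := by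
          rw [Finset.sum_eq_single a]
          · rw [if_pos rfl, Real.sqrt_mul_self (hr0 a)]; ring
          · intro b _ hb
            rw [if_neg (Ne.symm hb)]; ring
          · simp
        calc ∑ b, √(r a * r b) * (1 / 2 * ((if a = b then (1 : ℝ) else 0) ^ 2 + X a b ^ 2))
            = 1 / 2 * (∑ b, √(r a * r b) * (if a = b then (1 : ℝ) else 0) ^ 2
              + ∑ b, √(r a * r b) * LA (q 0) a b ^ 2) := by
              rw [← Finset.sum_add_distrib, Finset.mul_sum]
              refine Finset.sum_congr rfl fun b _ => ?_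
              rw [← hX]
              ring
          _ = _ := by rw [e3, e2]
      simp_rw [e1]
      rw [← Finset.mul_sum, Finset.sum_add_distrib, hr1, Finset.sum_comm]
      congr 2
      refine Finset.sum_congr rfl fun k _ => ?_
      rw [← Finset.mul_sum]
      congr 1
      exact sum_sqrt (fun k => (hl k).le) k
    unfold EH
    rw [hG, h3]
    ring

end site

end Pool.Agent.TH590.FF
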