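import Pool.Agent.W417.KS.La
import Pool.Agent.TH590.FF.Site

/-!
# Linear algebra: spectral weights, compression, singular vectors
-/

set_option autoImplicit false
set_option linter.unusedVariables false

open Finset Matrix

namespace Pool.Agent.TH590.FF

open Pool.Agent.W259.GP Pool.Agent.W338.GP Pool.Agent.W417.KS

/-- completion of orthonormal rows indexed by `succ` -/
theorem exists_complete {n : ℕ} (y : Fin n → Fin (n + 1) → ℝ)
    (hy : ∀ i j, ∑ k, y i k * y j k = if i = j then 1 else 0) :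
    ∃ y0 : Fin (n + 1) → ℝ, Ort (Fin.cons y0 y : Fin (n + 1) → Fin (n + 1) → ℝ) := by
  classical
  set v : Fin (n + 1) → EuclideanSpace ℝ (Fin (n + 1)) :=
    fun i => WithLp.toLp 2 ((Fin.cons (fun _ => 0) y : Fin (n + 1) → Fin (n + 1) → ℝ) i) with hv
  have hvs : ∀ i : Fin n, ∀ k, v i.succ k = y i k := fun i k => rfl
  have hinner : ∀ i j : Fin n, inner ℝ (v i.succ) (v j.succ) = if i = j then (1 : ℝ) else 0 := by
    intro i j
    rw [← hy i j, PiLp.inner_apply]
    refine Finset.sum_congr rfl fun k _ => ?_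
    rw [hvs, hvs]
    simp [mul_comm]
  have hortho : Orthonormal ℝ (({i : Fin (n + 1) | i ≠ 0} : Set (Fin (n + 1))).domRestrict v) := by
    rw [orthonormal_iff_ite]
    rintro ⟨i, hi⟩ ⟨j, hj⟩
    obtain ⟨i', rfl⟩ := Fin.exists_succ_eq.mpr hi
    obtain ⟨j', rfl⟩ := Fin.exists_succ_eq.mpr hj
    show inner ℝ (v i'.succ) (v j'.succ) = _
    rw [hinner]
    simp [Subtype.mk_eq_mk, Fin.succ_inj]
  obtain ⟨b, hb⟩ := hortho.exists_orthonormalBasis_extension_of_card_eq (by simp)
  refine ⟨fun k => b 0 k, ?_⟩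
  have h1 : ∀ i l, ∑ j, b i j * b l j = if i = l then (1 : ℝ) else 0 := by
    intro i l
    have h1 := orthonormal_iff_ite.mp b.orthonormal i l
    rw [← h1, PiLp.inner_apply]
    exact Finset.sum_congr rfl fun k _ => by simp [mul_comm]
  have h2 : ∀ (i : Fin (n + 1)) (k : Fin (n + 1)),
      (Fin.cons (fun k => b 0 k) y : Fin (n + 1) → Fin (n + 1) → ℝ) i k = b i k := by
    intro i k
    refine Fin.cases ?_ (fun j => ?_) i
    · rfl
    · have h3 := hb j.succ (Fin.succ_ne_zero j)
      rw [Fin.cons_succ, h3, hvs]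
  intro i j
  rw [← h1 i j]
  exact Finset.sum_congr rfl fun k _ => by rw [h2, h2]

/-- an orthogonal matrix with given squares of the entries of the first column -/
theorem exists_O' (n : ℕ) (w : Fin (n + 1) → ℝ) (hw : ∀ j, 0 ≤ w j) (hsum : ∑ j, w j = 1) :
    ∃ O : Fin (n + 1) → Fin (n + 1) → ℝ, IsOrth O ∧
      (∀ i l, ∑ j, O j i * O j l = if i = l then 1 else 0) ∧ ∀ j, O j 0 ^ 2 = w j := by
  classical
  set v : Fin (n + 1) → EuclideanSpace ℝ (Fin (n + 1)) :=
    fun _ => WithLp.toLp 2 fun j => √(w j) with hv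
  have hortho : Orthonormal ℝ (({(0 : Fin (n + 1))} : Set (Fin (n + 1))).domRestrict v) := by
    constructor
    · rintro ⟨i, hi⟩
      show ‖v i‖ = 1
      rw [hv, EuclideanSpace.norm_eq]
      have : ∑ x : Fin (n + 1), ‖(WithLp.toLp 2 fun j : Fin (n + 1) => √(w j) :
          EuclideanSpace ℝ (Fin (n + 1))) x‖ ^ 2 = 1 := by
        rw [← hsum]
        refine Finset.sum_congr rfl fun j _ => ?_
        simp only [Real.norm_eq_abs, sq_abs]
        exact Real.sq_sqrt (hw j)
      rw [this, Real.sqrt_one]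
    · rintro ⟨i, hi⟩ ⟨j, hj⟩ hij
      rw [Set.mem_singleton_iff] at hi hj
      exact absurd (Subtype.ext (hi.trans hj.symm)) hij
  obtain ⟨b, hb⟩ := hortho.exists_orthonormalBasis_extension_of_card_eq (by simp)
  have h1 : ∀ i l, ∑ j, b i j * b l j = if i = l then (1 : ℝ) else 0 := by
    intro i l
    have h1 := orthonormal_iff_ite.mp b.orthonormal i l
    rw [← h1, PiLp.inner_apply]
    exact Finset.sum_congr rfl fun k _ => by simp [mul_comm]
  set B : Matrix (Fin (n + 1)) (Fin (n + 1)) ℝ := Matrix.of (fun i j => b i j) with hB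
  have hBB : B * B.transpose = 1 := by
    ext j k
    simp [Matrix.mul_apply, B, Matrix.one_apply, h1]
  have hBB' : B.transpose * B = 1 := mul_eq_one_comm.mp hBB
  refine ⟨fun j i => b i j, ?_, h1, ?_⟩
  · intro j l
    have := congrFun (congrFun hBB' j) l
    simpa [Matrix.mul_apply, B, Matrix.one_apply] using this
  · intro j
    have h2 := hb 0 (Set.mem_singleton _)
    have h3 : b 0 j = √(w j) := by rw [h2]
    show b 0 j ^ 2 = w j
    rw [h3]
    exact Real.sq_sqrt (hw j)

theorem MM_shift' {m : ℕ} {O : Fin m → Fin m → ℝ}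
    (hO : ∀ i l, ∑ j, O j i * O j l = if i = l then 1 else 0) (c : Fin m → ℝ) (s : ℝ)
    (i l : Fin m) : MM O (fun j => 1 - s * c j) i l =
      (if i = l then 1 else 0) - s * QM O c i l := by
  rw [MM_apply, ← hO i l]
  unfold QM
  rw [Finset.mul_sum, ← Finset.sum_sub_distrib]
  refine Finset.sum_congr rfl fun j _ => ?_
  ring

/-- the linear algebra of a distribution with weights `w` at the points `t` -/
theorem la2 (n : ℕ) (w t : Fin (n + 1) → ℝ) (hw : ∀ j, 0 ≤ w j) (hsum : ∑ j, w j = 1)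
    (ht0 : ∀ j, 0 < t j) (ht1 : ∀ j, t j < 1) :
    ∃ (q p : Fin (n + 1) → Fin (n + 1) → ℝ) (x : Fin n → ℝ), Ort q ∧ Ort p ∧
      (∀ k, q 0 k ^ 2 = w k) ∧ (∀ i, 0 < x i ∧ x i < 1) ∧
      (∀ j k, √(t k) * q (Fin.succ j) k = √(x j) * p (Fin.succ j) k) ∧
      ∀ s : ℝ, 0 ≤ s → s ≤ 1 →
        (∑ j, w j / (1 - s * t j)) * ∏ j, (1 - s * t j) = ∏ i, (1 - s * x i) := by
  classical
  obtain ⟨O, hO, hO2, hOw⟩ := exists_O' n w hw hsum
  obtain ⟨o, κ, h1, h2, h3⟩ := exists_eig (fun i l : Fin n => QM O t i.succ l.succ) (by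
    intro i l
    unfold QM
    exact Finset.sum_congr rfl fun j _ => by ring)
  have h4 : ∀ i l : Fin n, QM O t i.succ l.succ = QM o κ i l := by
    intro i l
    have := quad_eq h2 h3 i l
    unfold QM at this ⊢
    rw [this]
    exact Finset.sum_congr rfl fun j _ => by ring
  set a : Fin n → Fin (n + 1) → ℝ := fun j k => ∑ i : Fin n, O k i.succ * o j i with ha
  have haa : ∀ j m, ∑ k, a j k * a m k = if j = m then 1 else 0 := by
    intro j m
    have e3 : ∀ k, a j k * a m k =
        ∑ i : Fin n, ∑ l : Fin n, (O k i.succ * O k l.succ) * (o j i * o m l) := by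
      intro k
      rw [ha]
      simp only
      rw [Finset.sum_mul_sum]
      exact Finset.sum_congr rfl fun i _ => Finset.sum_congr rfl fun l _ => by ring
    simp_rw [e3]
    rw [Finset.sum_comm]
    have e4 : ∀ i : Fin n, ∑ k, ∑ l : Fin n, (O k i.succ * O k l.succ) * (o j i * o m l) =
        o j i * o m i := by
      intro i
      rw [Finset.sum_comm]
      simp_rw [← Finset.sum_mul, hO2, Fin.succ_inj]
      simp
    simp_rw [e4]
    exact h1 j m
  have ha0 : ∀ j, ∑ k, O k 0 * a j k = 0 := by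
    intro j
    have e3 : ∀ k, O k 0 * a j k = ∑ i : Fin n, (O k 0 * O k i.succ) * o j i := by
      intro k
      rw [ha]
      simp only
      rw [Finset.mul_sum]
      exact Finset.sum_congr rfl fun i _ => by ring
    simp_rw [e3]
    rw [Finset.sum_comm]
    refine Finset.sum_eq_zero fun i _ => ?_
    rw [← Finset.sum_mul, hO2, if_neg (sz i), zero_mul]
  have hta : ∀ j m, ∑ k, t k * (a j k * a m k) = if j = m then κ j else 0 := by
    intro j m
    have e3 : ∀ k, t k * (a j k * a m k) =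
        ∑ i : Fin n, ∑ l : Fin n, (O k i.succ * t k * O k l.succ) * (o j i * o m l) := by
      intro k
      rw [ha]
      simp only
      rw [Finset.sum_mul_sum, Finset.mul_sum]
      refine Finset.sum_congr rfl fun i _ => ?_
      rw [Finset.mul_sum]
      exact Finset.sum_congr rfl fun l _ => by ring
    simp_rw [e3]
    rw [Finset.sum_comm]
    have e4 : ∀ i : Fin n, ∑ k, ∑ l : Fin n, (O k i.succ * t k * O k l.succ) * (o j i * o m l) =
        o j i * (κ m * o m i) := by
      intro i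
      rw [Finset.sum_comm, ← h3 m i, Finset.mul_sum]
      refine Finset.sum_congr rfl fun l _ => ?_
      rw [← Finset.sum_mul]
      unfold QM
      ring
    simp_rw [e4]
    have e5 : ∑ i, o j i * (κ m * o m i) = κ m * ∑ i, o j i * o m i := by
      rw [Finset.mul_sum]
      exact Finset.sum_congr rfl fun i _ => by ring
    rw [e5, h1]
    by_cases hjm : j = m
    · subst hjm; simp
    · simp [hjm]
  have hκ : ∀ j, 0 < κ j ∧ κ j < 1 := by
    intro j
    have e1 := hta j j
    rw [if_pos rfl] at e1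
    have e2 := haa j j
    rw [if_pos rfl] at e2
    have e3 : ∃ k, a j k ≠ 0 := by
      by_contra hcon
      push Not at hcon
      simp [hcon] at e2
    obtain ⟨k, hk⟩ := e3
    have hk2 : 0 < a j k * a j k := mul_self_pos.mpr hk
    constructor
    · rw [← e1]
      exact Finset.sum_pos' (fun k _ => mul_nonneg (ht0 k).le (mul_self_nonneg _))
        ⟨k, Finset.mem_univ _, mul_pos (ht0 k) hk2⟩
    · rw [← e1, ← e2]
      refine Finset.sum_lt_sum (fun k _ => ?_) ⟨k, Finset.mem_univ _, ?_⟩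
      · have := mul_self_nonneg (a j k)
        nlinarith [(ht1 k).le]
      · nlinarith [ht1 k]
  have hb : ∀ i j, ∑ k, (fun (j : Fin n) (k : Fin (n + 1)) => √(t k) * a j k / √(κ j)) i k *
      (fun (j : Fin n) (k : Fin (n + 1)) => √(t k) * a j k / √(κ j)) j k
        = if i = j then 1 else 0 := by
    intro i j
    simp only
    have e1 : ∀ k, √(t k) * a i k / √(κ i) * (√(t k) * a j k / √(κ j))
        = (t k * (a i k * a j k)) / (√(κ i) * √(κ j)) := by
      intro k
      rw [div_mul_div_comm]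
      congr 1
      have := Real.mul_self_sqrt (ht0 k).le
      linear_combination (a i k * a j k) * this
    simp_rw [e1]
    rw [← Finset.sum_div, hta]
    by_cases hij : i = j
    · subst hij
      rw [if_pos rfl, if_pos rfl, Real.mul_self_sqrt (hκ i).1.le, div_self (hκ i).1.ne']
    · rw [if_neg hij, if_neg hij, zero_div]
  obtain ⟨p0, hp⟩ := exists_complete _ hb
  refine ⟨Fin.cons (fun k => O k 0) a, Fin.cons p0 _, κ, ?_, hp, fun k => ?_, hκ, fun j k => ?_,
    ?_⟩
  · intro i j
    refine Fin.cases ?_ (fun i' => ?_) i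
    · refine Fin.cases ?_ (fun j' => ?_) j
      · simp only [Fin.cons_zero]
        exact hO2 0 0
      · simp only [Fin.cons_zero, Fin.cons_succ]
        rw [ha0, if_neg (sz j')]
    · refine Fin.cases ?_ (fun j' => ?_) j
      · simp only [Fin.cons_zero, Fin.cons_succ]
        rw [if_neg (Fin.succ_ne_zero i'), ← ha0 i']
        exact Finset.sum_congr rfl fun k _ => mul_comm _ _
      · simp only [Fin.cons_succ, Fin.succ_inj]
        exact haa i' j'
  · simp only [Fin.cons_zero]
    exact hOw k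
  · simp only [Fin.cons_succ]
    have := (Real.sqrt_pos.mpr (hκ j).1).ne'
    field_simp
  intro s hs0 hs1
  set q : Fin (n + 1) → ℝ := fun j => 1 - s * t j with hq
  set q' : Fin n → ℝ := fun j => 1 - s * κ j with hq'
  have hqpos : ∀ j, 0 < q j := fun j => by
    have h5 := ht1 j
    have h6 := ht0 j
    simp only [hq]
    nlinarith
  have hsub : (MM O q).submatrix Fin.succ Fin.succ = MM o q' := by
    ext i l
    rw [Matrix.submatrix_apply, hq, hq', MM_shift' hO2, MM_shift' h2, h4]
    simp only [Fin.succ_inj]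
  have hadj1 : (MM O q).adjugate 0 0 = ∏ i, q' i := by
    rw [Matrix.adjugate_fin_succ_eq_det_submatrix]
    have : (MM O q).submatrix (Fin.succAbove 0) (Fin.succAbove 0) = MM o q' := by
      rw [← hsub]
      rfl
    rw [this, det_MM (fun j l => h1 j l)]
    simp
  have hadj2 : (MM O q).adjugate = (∏ j, q j) • MM O (fun j => (q j)⁻¹) := by
    have hm := MM_mul hO q (fun j => (q j)⁻¹) (fun j => mul_inv_cancel₀ (hqpos j).ne')
    calc (MM O q).adjugate = (MM O q).adjugate * (MM O q * MM O (fun j => (q j)⁻¹)) := by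
          rw [hm, Matrix.mul_one]
      _ = ((MM O q).adjugate * MM O q) * MM O (fun j => (q j)⁻¹) := by rw [Matrix.mul_assoc]
      _ = _ := by
          rw [Matrix.adjugate_mul, det_MM hO, Matrix.smul_mul, Matrix.one_mul]
  have h5 := congrFun (congrFun hadj2 0) 0
  rw [hadj1, Matrix.smul_apply, MM_apply, smul_eq_mul] at h5
  rw [h5, mul_comm]
  congr 1
  refine Finset.sum_congr rfl fun j _ => ?_
  rw [← hOw j, div_eq_mul_inv]
  simp only [hq]
  ring

/-- the site of a finitely supported distribution -/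
theorem exists_site' (n : ℕ) (w t : Fin (n + 1) → ℝ) (hw : ∀ j, 0 ≤ w j) (hsum : ∑ j, w j = 1)
    (ht0 : ∀ j, 0 < t j) (ht1 : ∀ j, t j < 1) :
    ∃ (s : Pool.Agent.H390R2.LP.Site (Om (n + 1)) (Fin 2)) (x : Fin n → ℝ),
      (∀ i, 0 < x i ∧ x i < 1) ∧
      Pool.Agent.H235R2.QLP.cc s = Real.log 2 + ∑ j, en (√(x j)) - ∑ k, en (√(t k)) ∧
      Pool.Agent.H235R2.QLP.EH s = 1 / 2 * (1 - ∑ k, w k * √(1 - t k)) ∧
      ∀ s : ℝ, 0 ≤ s → s ≤ 1 →
        (∑ j, w j / (1 - s * t j)) * ∏ j, (1 - s * t j) = ∏ i, (1 - s * x i) := by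
  obtain ⟨q, p, x, hq, hp, hqw, hx, hrel, hdet⟩ := la2 n w t hw hsum ht0 ht1
  have habs : ∀ y : ℝ, 0 < y → y < 1 → |√y| < 1 := by
    intro y h0 h1
    rw [abs_of_nonneg (Real.sqrt_nonneg _), Real.sqrt_lt' one_pos]
    simpa using h1
  obtain ⟨s, hs1, hs2⟩ := exists_site (l := fun k => √(t k)) (μ := fun j => √(x j)) hq hp
    (fun k => habs _ (ht0 k) (ht1 k)) (fun j => habs _ (hx j).1 (hx j).2) hrel
  refine ⟨s, x, hx, hs1, ?_, hdet⟩
  rw [hs2]
  congr 2
  refine Finset.sum_congr rfl fun k _ => ?_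
  rw [hqw, Real.sq_sqrt (ht0 k).le]

end Pool.Agent.TH590.FF
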