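import Pool.Agent.TH590.FF.Integral
import Pool.Agent.TH590.FF.Code

/-!
# From finitely supported distributions to probability measures
-/

set_option autoImplicit false
set_option linter.unusedVariables false

open Finset Filter MeasureTheory
open scoped Topology

namespace Pool.Agent.TH590.FF

open Pool.Agent.H390R2.LP Pool.Agent.H235R2.QLP

/-- the functional `∫₀¹ log (∫ dμ(t) / (1 - t s²)) ds / s²` -/
noncomputable def JM (μ : Measure ℝ) : ℝ :=
  ∫ s in (0 : ℝ)..1, Real.log (∫ t, 1 / (1 - t * s ^ 2) ∂μ) / s ^ 2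

section push

variable {μ : Measure ℝ} [IsProbabilityMeasure μ]

lemma kern_bounds {t s : ℝ} (h0 : 0 ≤ t) (h1 : t ≤ 1) (hs0 : 0 ≤ s) (hs1 : s < 1) :
    1 ≤ 1 / (1 - t * s ^ 2) ∧ 1 / (1 - t * s ^ 2) ≤ 1 / (1 - s ^ 2) := by
  have hs2 : s ^ 2 < 1 := by nlinarith
  have hs3 : 0 ≤ s ^ 2 := sq_nonneg s
  have h2 : 0 < 1 - s ^ 2 := by linarith
  have h3 : 1 - s ^ 2 ≤ 1 - t * s ^ 2 := by nlinarith
  constructor
  · rw [le_div_iff₀ (by linarith)]
    nlinarith
  · exact one_div_le_one_div_of_le h2 h3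

lemma L_bounds {T : ℝ → ℝ} (hT : Measurable T) (hT1 : ∀ᵐ t ∂μ, 0 ≤ T t ∧ T t ≤ 1) {s : ℝ}
    (hs0 : 0 ≤ s) (hs1 : s < 1) :
    1 ≤ ∫ t, 1 / (1 - T t * s ^ 2) ∂μ ∧ ∫ t, 1 / (1 - T t * s ^ 2) ∂μ ≤ 1 / (1 - s ^ 2) := by
  have hint : Integrable (fun t => 1 / (1 - T t * s ^ 2)) μ := by
    refine Integrable.of_bound (C := 1 / (1 - s ^ 2)) ?_ ?_
    · apply Measurable.aestronglyMeasurable
      fun_prop
    · filter_upwards [hT1] with t ht
      have h := kern_bounds ht.1 ht.2 hs0 hs1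
      rw [Real.norm_eq_abs, abs_of_nonneg (by linarith)]
      exact h.2
  constructor
  · have h1 : ∫ _t, (1 : ℝ) ∂μ ≤ ∫ t, 1 / (1 - T t * s ^ 2) ∂μ := by
      refine integral_mono_ae (integrable_const _) hint ?_
      filter_upwards [hT1] with t ht
      exact (kern_bounds ht.1 ht.2 hs0 hs1).1
    simpa using h1
  · have h1 : ∫ t, 1 / (1 - T t * s ^ 2) ∂μ ≤ ∫ _t, 1 / (1 - s ^ 2) ∂μ := by
      refine integral_mono_ae hint (integrable_const _) ?_
      filter_upwards [hT1] with t ht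
      exact (kern_bounds ht.1 ht.2 hs0 hs1).2
    simpa using h1

lemma log_bound {L s : ℝ} (hs0 : 0 ≤ s) (hs1 : s < 1) (h1 : 1 ≤ L) (h2 : L ≤ 1 / (1 - s ^ 2)) :
    ‖Real.log L / s ^ 2‖ ≤ -Real.log (1 - (1 : ℝ) ^ 2 * s ^ 2) / s ^ 2 := by
  have h3 : 0 < 1 - s ^ 2 := by nlinarith
  have h4 : 0 ≤ Real.log L := Real.log_nonneg h1
  rw [Real.norm_eq_abs, abs_of_nonneg (div_nonneg h4 (sq_nonneg s))]
  apply div_le_div_of_nonneg_right _ (sq_nonneg s)
  have h5 := Real.log_le_log (by linarith) h2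
  rw [one_div, Real.log_inv] at h5
  simpa using h5

/-- convergence of the functional under convergence of the points -/
lemma J_tendsto {T : ℕ → ℝ → ℝ} {T0 : ℝ → ℝ} (hT : ∀ M, Measurable (T M)) (hT0 : Measurable T0)
    (hT1 : ∀ M, ∀ᵐ t ∂μ, 0 ≤ T M t ∧ T M t ≤ 1)
    (hlim : ∀ᵐ t ∂μ, Tendsto (fun M => T M t) atTop (𝓝 (T0 t)))
    (hmeas : ∀ M, Measurable fun s : ℝ => ∫ t, 1 / (1 - T M t * s ^ 2) ∂μ) :
    Tendsto (fun M => ∫ s in (0 : ℝ)..1, Real.log (∫ t, 1 / (1 - T M t * s ^ 2) ∂μ) / s ^ 2) atTop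
      (𝓝 (∫ s in (0 : ℝ)..1, Real.log (∫ t, 1 / (1 - T0 t * s ^ 2) ∂μ) / s ^ 2)) := by
  have hT01 : ∀ᵐ t ∂μ, 0 ≤ T0 t ∧ T0 t ≤ 1 := by
    have h := ae_all_iff.mpr hT1
    filter_upwards [h, hlim] with t h1 h2
    exact ⟨ge_of_tendsto' h2 fun M => (h1 M).1, le_of_tendsto' h2 fun M => (h1 M).2⟩
  have hne : ∀ᵐ s : ℝ, s ≠ 1 := by
    rw [ae_iff]
    simp
  apply intervalIntegral.tendsto_integral_filter_of_dominated_convergence
    (fun s => -Real.log (1 - (1 : ℝ) ^ 2 * s ^ 2) / s ^ 2)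
  · refine Eventually.of_forall fun M => ?_
    apply Measurable.aestronglyMeasurable
    exact (Real.measurable_log.comp (hmeas M)).div (measurable_id.pow_const 2)
  · refine Eventually.of_forall fun M => ?_
    filter_upwards [hne] with s hs1 hs
    rw [Set.uIoc_of_le zero_le_one] at hs
    have hs2 : s < 1 := lt_of_le_of_ne hs.2 hs1
    have h := L_bounds (hT M) (hT1 M) hs.1.le hs2
    exact log_bound hs.1.le hs2 h.1 h.2
  · exact log_neg_int one_pos le_rfl
  · filter_upwards [hne] with s hs1 hs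
    rw [Set.uIoc_of_le zero_le_one] at hs
    have hs2 : s < 1 := lt_of_le_of_ne hs.2 hs1
    have h := L_bounds hT0 hT01 hs.1.le hs2
    refine Tendsto.div_const (Tendsto.log ?_ (by linarith)) _
    apply tendsto_integral_filter_of_dominated_convergence (fun _ => 1 / (1 - s ^ 2))
    · refine Eventually.of_forall fun M => ?_
      apply Measurable.aestronglyMeasurable
      have := hT M
      fun_prop
    · refine Eventually.of_forall fun M => ?_
      filter_upwards [hT1 M] with t ht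
      have h := kern_bounds ht.1 ht.2 hs.1.le hs2
      rw [Real.norm_eq_abs, abs_of_nonneg (by linarith)]
      exact h.2
    · exact integrable_const _
    · filter_upwards [hlim, hT01] with t ht ht1
      refine Tendsto.div tendsto_const_nhds ?_ ?_
      · exact tendsto_const_nhds.sub (ht.mul_const _)
      · have h3 : 0 < 1 - s ^ 2 := by nlinarith [hs.1]
        have h4 : 0 ≤ s ^ 2 := sq_nonneg s
        nlinarith [ht1.1, ht1.2]

/-- index of the cell -/
noncomputable def ka (M : ℕ) (t : ℝ) : Fin (M + 1) :=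
  ⟨min ⌊(M : ℝ) * t⌋₊ M, Nat.lt_succ_of_le (min_le_right _ _)⟩

/-- the points -/
noncomputable def tt (M : ℕ) (k : Fin (M + 1)) : ℝ := ((k : ℝ) + 1 / 2) / (M + 1)

lemma ka_meas (M : ℕ) : Measurable (ka M) := by
  have h1 : Measurable fun t : ℝ => ⌊(M : ℝ) * t⌋₊ :=
    Nat.measurable_floor.comp (measurable_const.mul measurable_id)
  have h2 : Measurable (fun m : ℕ => (⟨min m M, Nat.lt_succ_of_le (min_le_right _ _)⟩ :
      Fin (M + 1))) := measurable_from_top
  exact h2.comp h1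

lemma tt_pos (M : ℕ) (k : Fin (M + 1)) : 0 < tt M k := by unfold tt; positivity

lemma tt_lt (M : ℕ) (k : Fin (M + 1)) : tt M k < 1 := by
  unfold tt
  rw [div_lt_one (by positivity)]
  have : (k : ℝ) ≤ M := by exact_mod_cast Nat.lt_succ_iff.mp k.isLt
  linarith

lemma tt_lim {t : ℝ} (h0 : 0 ≤ t) (h1 : t ≤ 1) :
    Tendsto (fun M : ℕ => tt M (ka M t)) atTop (𝓝 t) := by
  have hb : ∀ M : ℕ, |tt M (ka M t) - t| ≤ 3 / 2 * (1 / ((M : ℝ) + 1)) := by
    intro M
    have hM : (0 : ℝ) ≤ M := Nat.cast_nonneg M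
    have hMt : 0 ≤ (M : ℝ) * t := mul_nonneg hM h0
    have h2 : ⌊(M : ℝ) * t⌋₊ ≤ M := by
      have : (M : ℝ) * t ≤ M := by nlinarith
      exact_mod_cast (Nat.floor_le hMt).trans this
    have h3 : ((ka M t : Fin (M + 1)) : ℝ) = (⌊(M : ℝ) * t⌋₊ : ℝ) := by
      unfold ka
      simp [min_eq_left h2]
    unfold tt
    rw [h3]
    have h4 := Nat.floor_le hMt
    have h5 := Nat.lt_floor_add_one ((M : ℝ) * t)
    have e : ((⌊(M : ℝ) * t⌋₊ : ℝ) + 1 / 2) / (M + 1) - t
        = ((⌊(M : ℝ) * t⌋₊ : ℝ) + 1 / 2 - t * (M + 1)) / (M + 1) := by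
      field_simp
    rw [e, abs_div, abs_of_pos (by positivity : (0 : ℝ) < M + 1), div_eq_mul_one_div]
    apply mul_le_mul_of_nonneg_right _ (by positivity)
    rw [abs_le]
    constructor <;> nlinarith
  rw [tendsto_iff_norm_sub_tendsto_zero]
  have h := (tendsto_one_div_add_atTop_nhds_zero_nat (𝕜 := ℝ)).const_mul (3 / 2)
  rw [mul_zero] at h
  exact squeeze_zero (fun M => norm_nonneg _) hb h

/-- integrals of functions of the cell -/
lemma int_ka (M : ℕ) (g : Fin (M + 1) → ℝ) :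
    ∫ t, g (ka M t) ∂μ = ∑ k, (μ.map (ka M)).real {k} * g k := by
  have hprob : IsProbabilityMeasure (μ.map (ka M)) :=
    Measure.isProbabilityMeasure_map (ka_meas M).aemeasurable
  rw [← integral_map (ka_meas M).aemeasurable
    (measurable_of_finite g).aestronglyMeasurable, integral_fintype]
  · rfl
  · exact Integrable.of_finite

end push

/-- **Sites of a probability measure**: information close to `J(μ) / 2`, energy at most `δ`. -/
theorem exists_site_meas (μ : Measure ℝ) [IsProbabilityMeasure μ]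
    (hμ : ∀ᵐ t ∂μ, 0 ≤ t ∧ t ≤ 1) {δ : ℝ} (hδ : 0 < δ) (hc : 1 - 2 * δ ≤ ∫ t, √(1 - t) ∂μ)
    {ε : ℝ} (hε : 0 < ε) :
    ∃ (Ω : Type) (_ : Fintype Ω) (_ : DecidableEq Ω) (s : Site Ω (Fin 2)),
      1 / 2 * JM μ - ε < cc s ∧ EH s ≤ δ := by
  set w : (M : ℕ) → Fin (M + 1) → ℝ := fun M k => (μ.map (ka M)).real {k} with hw
  have hw0 : ∀ M k, 0 ≤ w M k := fun M k => measureReal_nonneg
  have hw1 : ∀ M, ∑ k, w M k = 1 := by
    intro M
    have := int_ka (μ := μ) M (fun _ => 1)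
    simp only [mul_one] at this
    rw [← this]
    simp
  have hS : ∀ M, ∃ s : Site (Om (M + 1)) (Fin 2), cc s = 1 / 2 * JF (w M) (tt M) ∧
      EH s = 1 / 2 * (1 - ∑ k, w M k * √(1 - tt M k)) := fun M =>
    exists_site_JF M (w M) (tt M) (hw0 M) (hw1 M) (tt_pos M) (tt_lt M)
  have hTm : ∀ M, Measurable fun t => tt M (ka M t) := fun M =>
    (measurable_of_finite (tt M)).comp (ka_meas M)
  have hT1 : ∀ M, ∀ᵐ t ∂μ, 0 ≤ tt M (ka M t) ∧ tt M (ka M t) ≤ 1 := fun M =>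
    Eventually.of_forall fun t => ⟨(tt_pos M _).le, (tt_lt M _).le⟩
  have hlim : ∀ᵐ t ∂μ, Tendsto (fun M => tt M (ka M t)) atTop (𝓝 t) := by
    filter_upwards [hμ] with t ht
    exact tt_lim ht.1 ht.2
  have hLM : ∀ M, ∀ s : ℝ, ∫ t, 1 / (1 - tt M (ka M t) * s ^ 2) ∂μ
      = ∑ k, w M k / (1 - tt M k * s ^ 2) := by
    intro M s
    rw [int_ka M (fun k => 1 / (1 - tt M k * s ^ 2))]
    exact Finset.sum_congr rfl fun k _ => by rw [mul_one_div]
  have hJ : Tendsto (fun M => JF (w M) (tt M)) atTop (𝓝 (JM μ)) := by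
    have h := J_tendsto (μ := μ) (T := fun M t => tt M (ka M t)) (T0 := fun t => t) hTm
      measurable_id hT1 hlim (by
        intro M
        simp_rw [hLM M]
        fun_prop)
    simp_rw [hLM] at h
    exact h
  have hE : Tendsto (fun M => 1 / 2 * (1 - ∑ k, w M k * √(1 - tt M k))) atTop
      (𝓝 (1 / 2 * (1 - ∫ t, √(1 - t) ∂μ))) := by
    refine Tendsto.const_mul _ (tendsto_const_nhds.sub ?_)
    have e : ∀ M, ∑ k, w M k * √(1 - tt M k) = ∫ t, √(1 - tt M (ka M t)) ∂μ := fun M =>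
      (int_ka M (fun k => √(1 - tt M k))).symm
    simp_rw [e]
    apply tendsto_integral_filter_of_dominated_convergence (fun _ => (1 : ℝ))
    · refine Eventually.of_forall fun M => ?_
      apply Measurable.aestronglyMeasurable
      exact (measurable_const.sub (hTm M)).sqrt
    · refine Eventually.of_forall fun M => Eventually.of_forall fun t => ?_
      rw [Real.norm_eq_abs, abs_of_nonneg (Real.sqrt_nonneg _)]
      apply Real.sqrt_le_one.mpr
      linarith [tt_pos M (ka M t)]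
    · exact integrable_const _
    · filter_upwards [hlim] with t ht
      exact (tendsto_const_nhds.sub ht).sqrt
  -- the parameter of the mixture
  set τ : ℝ := min (1 / 2) (ε / (2 * (|1 / 2 * JM μ| + 1))) with hτ
  have hden : 0 < 2 * (|1 / 2 * JM μ| + 1) := by positivity
  have hτ0 : 0 < τ := lt_min (by norm_num) (by positivity)
  have hτ1 : τ ≤ 1 / 2 := min_le_left _ _
  have hτ2 : τ * (|1 / 2 * JM μ| + 1) ≤ ε / 2 := by
    have h1 : τ ≤ ε / (2 * (|1 / 2 * JM μ| + 1)) := min_le_right _ _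
    rw [le_div_iff₀ hden] at h1
    linarith
  have hE2 : ∀ᶠ M in atTop, (1 - τ) * (1 / 2 * (1 - ∑ k, w M k * √(1 - tt M k))) < δ := by
    have h1 := hE.const_mul (1 - τ)
    refine (tendsto_order.mp h1).2 δ ?_
    have h2 : 1 / 2 * (1 - ∫ t, √(1 - t) ∂μ) ≤ δ := by linarith
    have h3 : (1 - τ) * (1 / 2 * (1 - ∫ t, √(1 - t) ∂μ)) ≤ (1 - τ) * δ :=
      mul_le_mul_of_nonneg_left h2 (by linarith)
    nlinarith
  have hJ2 : ∀ᶠ M in atTop, 1 / 2 * JM μ - ε < (1 - τ) * (1 / 2 * JF (w M) (tt M)) := by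
    have h1 := (hJ.const_mul (1 / 2)).const_mul (1 - τ)
    refine (tendsto_order.mp h1).1 _ ?_
    have h2 : τ * (1 / 2 * JM μ) ≤ ε / 2 := by
      have : 1 / 2 * JM μ ≤ |1 / 2 * JM μ| + 1 := by linarith [le_abs_self (1 / 2 * JM μ)]
      exact le_trans (mul_le_mul_of_nonneg_left this hτ0.le) hτ2
    linarith
  obtain ⟨M, hM1, hM2⟩ := (hE2.and hJ2).exists
  obtain ⟨s, hs1, hs2⟩ := hS M
  refine ⟨_, inferInstance, inferInstance,
    mix s (triv (0 : Fin 2)) (1 - τ) (by linarith) (by linarith), ?_, ?_⟩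
  · rw [cc_mix, cc_triv, mul_zero, add_zero, hs1]
    exact hM2
  · rw [EH_mix, EH_triv, mul_zero, add_zero, hs2]
    exact hM1.le

end Pool.Agent.TH590.FF
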