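import Pool.Agent.TH590.FF.Meas

/-!
# Adding a small mass at `1` to a two-point distribution increases the functional
-/

set_option autoImplicit false
set_option linter.unusedVariables false

open Finset Filter MeasureTheory
open scoped Topology

namespace Pool.Agent.TH590.FF

/-- integrability of `log L / s²` -/
lemma int_logL {L : ℝ → ℝ} (hL : Measurable L)
    (h : ∀ s, 0 ≤ s → s < 1 → 1 ≤ L s ∧ L s ≤ 1 / (1 - s ^ 2)) :
    IntervalIntegrable (fun s => Real.log (L s) / s ^ 2) volume 0 1 := by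
  have hb := log_neg_int one_pos le_rfl
  refine hb.mono_fun ?_ ?_
  · exact ((Real.measurable_log.comp hL).div (measurable_id.pow_const 2)).aestronglyMeasurable
  · have hne : ∀ᵐ s : ℝ ∂(volume.restrict (Set.uIoc (0 : ℝ) 1)), s ≠ 1 := by
      apply ae_restrict_of_ae
      rw [ae_iff]
      simp
    filter_upwards [hne, ae_restrict_mem measurableSet_uIoc] with s hs1 hs
    rw [Set.uIoc_of_le zero_le_one] at hs
    have hs2 : s < 1 := lt_of_le_of_ne hs.2 hs1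
    have h3 := h s hs.1.le hs2
    exact (log_bound hs.1.le hs2 h3.1 h3.2).trans (le_abs_self _)

lemma log_one_sub_ge {x : ℝ} (h0 : 0 ≤ x) (h1 : x ≤ 1 / 2) : -2 * x ≤ Real.log (1 - x) := by
  have h2 : 0 < 1 - x := by linarith
  have h3 := Real.one_sub_inv_le_log_of_pos h2
  have h4 : (1 - x)⁻¹ ≤ 1 + 2 * x := by
    rw [inv_le_comm₀ h2 (by linarith), inv_le_iff_one_le_mul₀ (by linarith)]
    nlinarith
  linarith

lemma log_one_add_ge {x : ℝ} (h0 : 0 ≤ x) (h1 : x ≤ 1) : x / 2 ≤ Real.log (1 + x) := by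
  have h2 : 0 < 1 + x := by linarith
  have h3 := Real.one_sub_inv_le_log_of_pos h2
  have h4 : (1 + x)⁻¹ ≤ 1 - x / 2 := by
    rw [inv_le_comm₀ h2 (by linarith), inv_le_iff_one_le_mul₀ (by linarith)]
    nlinarith
  linarith

/-- the kernel average of a two-point distribution -/
noncomputable def L2 (w0 w1 u s : ℝ) : ℝ := w0 + w1 / (1 - (1 - u ^ 2) * s ^ 2)

/-- the kernel average after the perturbation -/
noncomputable def L3 (w0 w1 u m a s : ℝ) : ℝ :=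
  (1 - a) * L2 w0 w1 u s + m * a + (1 - m) * a / (1 - s ^ 2)

lemma L2_bounds {u w0 w1 : ℝ} (hu0 : 0 < u) (hu1 : u < 1) (hw0 : 0 ≤ w0) (hw1 : 0 ≤ w1)
    (hsum : w0 + w1 = 1) {s : ℝ} (hs0 : 0 ≤ s) (hs1 : s < 1) :
    1 ≤ L2 w0 w1 u s ∧ L2 w0 w1 u s ≤ 1 / (1 - s ^ 2) ∧
      L2 w0 w1 u s ≤ 1 / u ^ 2 ∧ L2 w0 w1 u s ≤ 1 + s ^ 2 / u ^ 2 := by
  have hu2 : 0 < u ^ 2 := by positivity
  have hu21 : u ^ 2 < 1 := by nlinarith
  have hs2 : s ^ 2 < 1 := by nlinarith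
  have hs3 : 0 ≤ s ^ 2 := sq_nonneg s
  have hk := kern_bounds (t := 1 - u ^ 2) (s := s) (by linarith) (by linarith) hs0 hs1
  have hd1 : u ^ 2 ≤ 1 - (1 - u ^ 2) * s ^ 2 := by nlinarith
  have hd : 0 < 1 - (1 - u ^ 2) * s ^ 2 := by linarith
  have e : L2 w0 w1 u s = w0 * 1 + w1 * (1 / (1 - (1 - u ^ 2) * s ^ 2)) := by
    unfold L2; ring
  have hmax : 1 ≤ 1 / (1 - s ^ 2) := le_trans hk.1 hk.2
  have hku : 1 / (1 - (1 - u ^ 2) * s ^ 2) ≤ 1 / u ^ 2 := one_div_le_one_div_of_le hu2 hd1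
  have h1u : 1 ≤ 1 / u ^ 2 := le_trans hk.1 hku
  have hs4 : 0 ≤ s ^ 2 / u ^ 2 := by positivity
  have hks : 1 / (1 - (1 - u ^ 2) * s ^ 2) ≤ 1 + s ^ 2 / u ^ 2 := by
    rw [div_le_iff₀ hd]
    have e1 : (1 + s ^ 2 / u ^ 2) * (1 - (1 - u ^ 2) * s ^ 2)
        = 1 + s ^ 2 / u ^ 2 * (1 - (1 - u ^ 2) * s ^ 2 - (1 - u ^ 2) * u ^ 2) := by
      field_simp
      ring
    rw [e1]
    have h2 : 0 ≤ 1 - (1 - u ^ 2) * s ^ 2 - (1 - u ^ 2) * u ^ 2 := by
      have h3 : (1 - u ^ 2) * s ^ 2 ≤ 1 - u ^ 2 := by nlinarith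
      have h4 : (1 - u ^ 2) * u ^ 2 ≤ u ^ 2 := by nlinarith
      linarith
    have := mul_nonneg hs4 h2
    linarith
  have comb : ∀ y z' : ℝ, 1 ≤ y → 1 / (1 - (1 - u ^ 2) * s ^ 2) ≤ y →
      w0 * 1 + w1 * (1 / (1 - (1 - u ^ 2) * s ^ 2)) ≤ y := by
    intro y _ h1 h2
    have h3 := mul_le_mul_of_nonneg_left h1 hw0
    have h4 := mul_le_mul_of_nonneg_left h2 hw1
    have h5 : w0 * y + w1 * y = y := by rw [← add_mul, hsum, one_mul]
    linarith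
  rw [e]
  refine ⟨?_, comb _ 0 hmax hk.2, comb _ 0 h1u hku, comb _ 0 (by linarith) hks⟩
  have h4 := mul_le_mul_of_nonneg_left hk.1 hw1
  linarith

lemma L3_bounds {m u w0 w1 a : ℝ} (hu0 : 0 < u) (hu1 : u < 1) (hw0 : 0 ≤ w0) (hw1 : 0 ≤ w1)
    (hsum : w0 + w1 = 1) (hm0 : 0 < m) (hm1 : m < 1) (ha0 : 0 < a) (ha1 : a < 1) {s : ℝ}
    (hs0 : 0 ≤ s) (hs1 : s < 1) :
    1 ≤ L3 w0 w1 u m a s ∧ L3 w0 w1 u m a s ≤ 1 / (1 - s ^ 2) ∧
      (1 - a) * L2 w0 w1 u s + m * a + (1 - m) * a ≤ L3 w0 w1 u m a s := by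
  have h := L2_bounds hu0 hu1 hw0 hw1 hsum hs0 hs1
  have hmax : 1 ≤ 1 / (1 - s ^ 2) := le_trans h.1 h.2.1
  have e : L3 w0 w1 u m a s = (1 - a) * L2 w0 w1 u s + m * a * 1
      + (1 - m) * a * (1 / (1 - s ^ 2)) := by
    unfold L3; ring
  have h1 : 0 ≤ 1 - a := by linarith
  have h2 : 0 ≤ m * a := by positivity
  have h3 : 0 ≤ (1 - m) * a := mul_nonneg (by linarith) ha0.le
  have e2 := mul_le_mul_of_nonneg_left hmax h3
  rw [e]
  refine ⟨?_, ?_, by linarith⟩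
  · have e1 := mul_le_mul_of_nonneg_left h.1 h1
    linarith
  · have e1 := mul_le_mul_of_nonneg_left h.2.1 h1
    have e3 := mul_le_mul_of_nonneg_left hmax h2
    linarith

lemma ratio_one {m u w0 w1 a : ℝ} (hu0 : 0 < u) (hu1 : u < 1) (hw0 : 0 ≤ w0) (hw1 : 0 ≤ w1)
    (hsum : w0 + w1 = 1) (hm0 : 0 < m) (hm1 : m < 1) (ha0 : 0 < a) (ha1 : a < 1) {s : ℝ}
    (hs0 : 0 ≤ s) (hs1 : s < 1) :
    L2 w0 w1 u s * (1 - a / u ^ 2 * s ^ 2) ≤ L3 w0 w1 u m a s := by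
  have h := L2_bounds hu0 hu1 hw0 hw1 hsum hs0 hs1
  have h3 := (L3_bounds hu0 hu1 hw0 hw1 hsum hm0 hm1 ha0 ha1 hs0 hs1).2.2
  have e2 : a * (L2 w0 w1 u s - 1) ≤ a * (s ^ 2 / u ^ 2) :=
    mul_le_mul_of_nonneg_left (by linarith [h.2.2.2]) ha0.le
  have e3 : a / u ^ 2 * s ^ 2 = a * (s ^ 2 / u ^ 2) := by ring
  have e4 : 0 ≤ a * (s ^ 2 / u ^ 2) := by positivity
  have e5 : 1 * (a * (s ^ 2 / u ^ 2)) ≤ L2 w0 w1 u s * (a * (s ^ 2 / u ^ 2)) :=
    mul_le_mul_of_nonneg_right h.1 e4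
  rw [e3]
  have e6 : L2 w0 w1 u s * (1 - a * (s ^ 2 / u ^ 2))
      = L2 w0 w1 u s - L2 w0 w1 u s * (a * (s ^ 2 / u ^ 2)) := by ring
  have e7 : (1 - a) * L2 w0 w1 u s + m * a + (1 - m) * a
      = L2 w0 w1 u s - a * (L2 w0 w1 u s - 1) := by ring
  rw [e6]
  linarith

lemma ratio_two {m u w0 w1 a : ℝ} (hu0 : 0 < u) (hu1 : u < 1) (hw0 : 0 ≤ w0) (hw1 : 0 ≤ w1)
    (hsum : w0 + w1 = 1) (hm0 : 0 < m) (hm1 : m < 1) (ha0 : 0 < a) (ha1 : a < 1) {s : ℝ}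
    (hs0 : 1 - (1 - m) * u ^ 2 / 4 ≤ s) (hs1 : s < 1) :
    L2 w0 w1 u s * (1 + (1 - m) * a * u ^ 2 / 4 / (1 - s)) ≤ L3 w0 w1 u m a s := by
  have hu2 : 0 < u ^ 2 := by positivity
  have hu21 : u ^ 2 < 1 := by nlinarith
  have hm' : 0 < 1 - m := by linarith
  have hb : (1 - m) * u ^ 2 ≤ 1 := by nlinarith
  have hs00 : 0 ≤ s := by linarith
  have h := L2_bounds hu0 hu1 hw0 hw1 hsum hs00 hs1
  have h1s : 0 < 1 - s := by linarith
  have hss : 0 < 1 - s ^ 2 := by nlinarith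
  have e1 : (1 - m) * a / (2 * (1 - s)) ≤ (1 - m) * a / (1 - s ^ 2) := by
    apply div_le_div_of_nonneg_left (by positivity) hss
    nlinarith
  have e2 : a ≤ (1 - m) * a * u ^ 2 / (4 * (1 - s)) := by
    rw [le_div_iff₀ (by linarith)]
    have h5 : 4 * (1 - s) ≤ (1 - m) * u ^ 2 := by linarith
    have h6 := mul_le_mul_of_nonneg_left h5 ha0.le
    linarith
  have e3 : (1 - m) * a * u ^ 2 / 4 / (1 - s) = (1 - m) * a * u ^ 2 / (4 * (1 - s)) := by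
    rw [div_div]
  have f1 : a + (1 - m) * a * u ^ 2 / (4 * (1 - s)) ≤ (1 - m) * a * u ^ 2 / (2 * (1 - s)) := by
    have : (1 - m) * a * u ^ 2 / (2 * (1 - s)) = (1 - m) * a * u ^ 2 / (4 * (1 - s))
      + (1 - m) * a * u ^ 2 / (4 * (1 - s)) := by
      field_simp
      ring
    linarith
  have f2 : 0 ≤ a + (1 - m) * a * u ^ 2 / (4 * (1 - s)) := by positivity
  have e4 : L2 w0 w1 u s * (a + (1 - m) * a * u ^ 2 / (4 * (1 - s)))
      ≤ (1 - m) * a / (2 * (1 - s)) := by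
    calc L2 w0 w1 u s * (a + (1 - m) * a * u ^ 2 / (4 * (1 - s)))
        ≤ 1 / u ^ 2 * (a + (1 - m) * a * u ^ 2 / (4 * (1 - s))) :=
          mul_le_mul_of_nonneg_right h.2.2.1 f2
      _ ≤ 1 / u ^ 2 * ((1 - m) * a * u ^ 2 / (2 * (1 - s))) :=
          mul_le_mul_of_nonneg_left f1 (by positivity)
      _ = (1 - m) * a / (2 * (1 - s)) := by field_simp
  have e5 : L3 w0 w1 u m a s = (1 - a) * L2 w0 w1 u s + m * a + (1 - m) * a / (1 - s ^ 2) :=
    rfl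
  have e6 : 0 ≤ m * a := by positivity
  rw [e5, e3]
  have e7 : L2 w0 w1 u s * (1 + (1 - m) * a * u ^ 2 / (4 * (1 - s)))
      = (1 - a) * L2 w0 w1 u s + L2 w0 w1 u s * (a + (1 - m) * a * u ^ 2 / (4 * (1 - s))) := by
    ring
  rw [e7]
  linarith

/-- the difference of the integrands -/
noncomputable def DD (w0 w1 u m a s : ℝ) : ℝ :=
  Real.log (L3 w0 w1 u m a s) / s ^ 2 - Real.log (L2 w0 w1 u s) / s ^ 2

lemma DD_one {m u w0 w1 a : ℝ} (hu0 : 0 < u) (hu1 : u < 1) (hw0 : 0 ≤ w0) (hw1 : 0 ≤ w1)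
    (hsum : w0 + w1 = 1) (hm0 : 0 < m) (hm1 : m < 1) (ha0 : 0 < a) (ha1 : a ≤ u ^ 2 / 2) {s : ℝ}
    (hs0 : 0 ≤ s) (hs1 : s < 1) : -2 * (a / u ^ 2) ≤ DD w0 w1 u m a s := by
  have hu2 : 0 < u ^ 2 := by positivity
  have hu21 : u ^ 2 < 1 := by nlinarith
  have ha2 : a < 1 := by linarith
  have hau : 0 ≤ a / u ^ 2 := by positivity
  rcases hs0.eq_or_lt with h0 | h0
  · rw [← h0]
    unfold DD
    simp
    exact hau
  have h := L2_bounds hu0 hu1 hw0 hw1 hsum hs0 hs1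
  have hs3 : 0 < s ^ 2 := by positivity
  have hs4 : s ^ 2 < 1 := by nlinarith
  have hx0 : 0 ≤ a / u ^ 2 * s ^ 2 := by positivity
  have hx1 : a / u ^ 2 * s ^ 2 ≤ 1 / 2 := by
    have : a / u ^ 2 ≤ 1 / 2 := by
      rw [div_le_iff₀ hu2]; linarith
    nlinarith
  have hge := ratio_one hu0 hu1 hw0 hw1 hsum hm0 hm1 ha0 ha2 hs0 hs1
  have hpos1 : 0 < L2 w0 w1 u s := by linarith [h.1]
  have e1 := log_one_sub_ge hx0 hx1
  have e2 := Real.log_le_log (mul_pos hpos1 (by linarith)) hge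
  rw [Real.log_mul hpos1.ne' (by linarith)] at e2
  unfold DD
  rw [← sub_div, le_div_iff₀ hs3]
  linarith

lemma DD_two {m u w0 w1 a : ℝ} (hu0 : 0 < u) (hu1 : u < 1) (hw0 : 0 ≤ w0) (hw1 : 0 ≤ w1)
    (hsum : w0 + w1 = 1) (hm0 : 0 < m) (hm1 : m < 1) (ha0 : 0 < a) (ha1 : a < 1) {s : ℝ}
    (hs0 : 1 - (1 - m) * u ^ 2 / 4 ≤ s) (hs1 : s ≤ 1 - (1 - m) * a * u ^ 2 / 4) :
    (1 - m) * a * u ^ 2 / 4 / 2 * (1 / (1 - s)) ≤ DD w0 w1 u m a s := by
  have hu2 : 0 < u ^ 2 := by positivity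
  have hu21 : u ^ 2 < 1 := by nlinarith
  have hm' : 0 < 1 - m := by linarith
  have hb : (1 - m) * u ^ 2 ≤ 1 := by nlinarith
  have hκ0 : 0 < (1 - m) * a * u ^ 2 / 4 := by positivity
  have hs00 : 0 < s := by linarith
  have hs11 : s < 1 := by linarith
  have h := L2_bounds hu0 hu1 hw0 hw1 hsum hs00.le hs11
  have h1s : 0 < 1 - s := by linarith
  have hpos1 : 0 < L2 w0 w1 u s := by linarith [h.1]
  have hx0 : 0 ≤ (1 - m) * a * u ^ 2 / 4 / (1 - s) := by positivity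
  have hx1 : (1 - m) * a * u ^ 2 / 4 / (1 - s) ≤ 1 := by
    rw [div_le_one h1s]; linarith
  have e1 := log_one_add_ge hx0 hx1
  have e2 := Real.log_le_log (mul_pos hpos1 (by linarith))
    (ratio_two hu0 hu1 hw0 hw1 hsum hm0 hm1 ha0 ha1 hs0 hs11)
  rw [Real.log_mul hpos1.ne' (by linarith)] at e2
  have hs3 : 0 < s ^ 2 := by positivity
  have hs4 : s ^ 2 ≤ 1 := by nlinarith
  unfold DD
  rw [← sub_div, le_div_iff₀ hs3]
  have e3 : (1 - m) * a * u ^ 2 / 4 / 2 * (1 / (1 - s))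
      = (1 - m) * a * u ^ 2 / 4 / (1 - s) / 2 := by ring
  rw [e3]
  have e5 : 0 ≤ (1 - m) * a * u ^ 2 / 4 / (1 - s) / 2 := by positivity
  have e4 := mul_le_mul_of_nonneg_left hs4 e5
  linarith

lemma DD_three {m u w0 w1 a : ℝ} (hu0 : 0 < u) (hu1 : u < 1) (hw0 : 0 ≤ w0) (hw1 : 0 ≤ w1)
    (hsum : w0 + w1 = 1) (hm0 : 0 < m) (hm1 : m < 1) (ha0 : 0 < a) (ha1 : a < 1) {s : ℝ}
    (hs0 : 1 - (1 - m) * u ^ 2 / 4 ≤ s) (hs1 : s < 1) : 0 ≤ DD w0 w1 u m a s := by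
  have hu2 : 0 < u ^ 2 := by positivity
  have hu21 : u ^ 2 < 1 := by nlinarith
  have hm' : 0 < 1 - m := by linarith
  have hb : (1 - m) * u ^ 2 ≤ 1 := by nlinarith
  have hs00 : 0 < s := by linarith
  have h := L2_bounds hu0 hu1 hw0 hw1 hsum hs00.le hs1
  have h1s : 0 < 1 - s := by linarith
  have hpos1 : 0 < L2 w0 w1 u s := by linarith [h.1]
  have hge := ratio_two hu0 hu1 hw0 hw1 hsum hm0 hm1 ha0 ha1 hs0 hs1
  have hx0 : 0 ≤ (1 - m) * a * u ^ 2 / 4 / (1 - s) := by positivity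
  have hle : L2 w0 w1 u s ≤ L3 w0 w1 u m a s := by
    have := mul_nonneg hpos1.le hx0
    linarith
  have e2 := Real.log_le_log hpos1 hle
  unfold DD
  rw [← sub_div]
  exact div_nonneg (by linarith) (sq_nonneg s)

lemma J_gain {m u w0 w1 : ℝ} (hu0 : 0 < u) (hu1 : u < 1) (hw0 : 0 ≤ w0) (hw1 : 0 ≤ w1)
    (hsum : w0 + w1 = 1) (hm0 : 0 < m) (hm1 : m < 1) :
    ∃ a : ℝ, 0 < a ∧ a < 1 ∧
      ∫ s in (0 : ℝ)..1, Real.log (L2 w0 w1 u s) / s ^ 2
        < ∫ s in (0 : ℝ)..1, Real.log (L3 w0 w1 u m a s) / s ^ 2 := by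
  have hu2 : 0 < u ^ 2 := by positivity
  have hu21 : u ^ 2 < 1 := by nlinarith
  have hm' : 0 < 1 - m := by linarith
  set E : ℝ := 17 / ((1 - m) * u ^ 4) with hE
  have hE0 : 0 < E := by positivity
  set a : ℝ := Real.exp (-E) with ha
  have ha0 : 0 < a := Real.exp_pos _
  have ha1 : a ≤ u ^ 2 / 2 := by
    have h1 : E + 1 ≤ Real.exp E := Real.add_one_le_exp E
    have h2 : a * Real.exp E = 1 := by rw [ha, ← Real.exp_add]; simp
    have h3 : a * E ≤ 1 := by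
      have := mul_le_mul_of_nonneg_left h1 ha0.le
      linarith
    have h4 : 2 / u ^ 2 ≤ E := by
      rw [hE, div_le_div_iff₀ hu2 (by positivity)]
      have h5 : u ^ 4 ≤ u ^ 2 := by
        have : u ^ 4 = u ^ 2 * u ^ 2 := by ring
        rw [this]
        nlinarith
      have h6 : (1 - m) * u ^ 4 ≤ 1 * u ^ 4 :=
        mul_le_mul_of_nonneg_right (by linarith) (by positivity)
      linarith
    have h5 : a * (2 / u ^ 2) ≤ 1 := (mul_le_mul_of_nonneg_left h4 ha0.le).trans h3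
    rw [mul_div_assoc', div_le_one hu2] at h5
    linarith
  have ha2 : a < 1 := by linarith
  refine ⟨a, ha0, ha2, ?_⟩
  have hmeas2 : Measurable (L2 w0 w1 u) := by
    unfold L2
    fun_prop
  have hmeas3 : Measurable (L3 w0 w1 u m a) := by
    unfold L3
    fun_prop
  have hi2 := int_logL hmeas2 fun s h0 h1 =>
    ⟨(L2_bounds hu0 hu1 hw0 hw1 hsum h0 h1).1, (L2_bounds hu0 hu1 hw0 hw1 hsum h0 h1).2.1⟩
  have hi3 := int_logL hmeas3 fun s h0 h1 =>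
    ⟨(L3_bounds hu0 hu1 hw0 hw1 hsum hm0 hm1 ha0 ha2 h0 h1).1,
      (L3_bounds hu0 hu1 hw0 hw1 hsum hm0 hm1 ha0 ha2 h0 h1).2.1⟩
  have hiD : IntervalIntegrable (DD w0 w1 u m a) volume 0 1 := hi3.sub hi2
  set κ : ℝ := (1 - m) * a * u ^ 2 / 4 with hκ
  set b0 : ℝ := (1 - m) * u ^ 2 / 4 with hb0
  have hκ0 : 0 < κ := by positivity
  have hb00 : 0 < b0 := by positivity
  have hκb : κ < b0 := by
    have e : κ = b0 * a := by rw [hκ, hb0]; ring
    rw [e]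
    have := mul_lt_mul_of_pos_left ha2 hb00
    linarith
  have hb01 : b0 < 1 := by
    rw [hb0]
    nlinarith
  have hsub1 : IntervalIntegrable (DD w0 w1 u m a) volume 0 (1 - b0) :=
    hiD.mono_set (by
      rw [Set.uIcc_of_le (by linarith), Set.uIcc_of_le zero_le_one]
      exact Set.Icc_subset_Icc le_rfl (by linarith))
  have hsub2 : IntervalIntegrable (DD w0 w1 u m a) volume (1 - b0) (1 - κ) :=
    hiD.mono_set (by
      rw [Set.uIcc_of_le (by linarith), Set.uIcc_of_le zero_le_one]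
      exact Set.Icc_subset_Icc (by linarith) (by linarith))
  have hsub3 : IntervalIntegrable (DD w0 w1 u m a) volume (1 - κ) 1 :=
    hiD.mono_set (by
      rw [Set.uIcc_of_le (by linarith), Set.uIcc_of_le zero_le_one]
      exact Set.Icc_subset_Icc (by linarith) le_rfl)
  have hsplit : ∫ s in (0 : ℝ)..1, DD w0 w1 u m a s = (∫ s in (0 : ℝ)..(1 - b0), DD w0 w1 u m a s)
      + (∫ s in (1 - b0)..(1 - κ), DD w0 w1 u m a s) + ∫ s in (1 - κ)..1, DD w0 w1 u m a s := by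
    rw [intervalIntegral.integral_add_adjacent_intervals hsub1 hsub2,
      intervalIntegral.integral_add_adjacent_intervals (hsub1.trans hsub2) hsub3]
  have I1 : -2 * (a / u ^ 2) ≤ ∫ s in (0 : ℝ)..(1 - b0), DD w0 w1 u m a s := by
    have h1 : ∫ _s in (0 : ℝ)..(1 - b0), -2 * (a / u ^ 2)
        ≤ ∫ s in (0 : ℝ)..(1 - b0), DD w0 w1 u m a s :=
      intervalIntegral.integral_mono_on (by linarith) intervalIntegrable_const hsub1 fun s hs =>
        DD_one hu0 hu1 hw0 hw1 hsum hm0 hm1 ha0 ha1 hs.1 (by linarith [hs.2])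
    rw [intervalIntegral.integral_const, smul_eq_mul] at h1
    have h2 : 0 ≤ a / u ^ 2 := by positivity
    have h3 : 0 ≤ b0 * (a / u ^ 2) := by positivity
    linarith
  have I2 : κ / 2 * Real.log (b0 / κ) ≤ ∫ s in (1 - b0)..(1 - κ), DD w0 w1 u m a s := by
    have hint : IntervalIntegrable (fun s : ℝ => κ / 2 * (1 / (1 - s))) volume (1 - b0) (1 - κ) := by
      apply ContinuousOn.intervalIntegrable
      rw [Set.uIcc_of_le (by linarith)]
      intro s hs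
      apply ContinuousAt.continuousWithinAt
      have : 1 - s ≠ 0 := by linarith [hs.2]
      exact continuousAt_const.mul (continuousAt_const.div
        (continuousAt_const.sub continuousAt_id) this)
    have h1 := intervalIntegral.integral_mono_on (by linarith) hint hsub2 fun s hs =>
      DD_two hu0 hu1 hw0 hw1 hsum hm0 hm1 ha0 ha2 hs.1 hs.2
    rw [intervalIntegral.integral_const_mul,
      intervalIntegral.integral_comp_sub_left (fun x : ℝ => 1 / x) 1] at h1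
    have e1 : (1 : ℝ) - (1 - κ) = κ := by ring
    have e2 : (1 : ℝ) - (1 - b0) = b0 := by ring
    rw [e1, e2, integral_one_div_of_pos hκ0 hb00] at h1
    exact h1
  have I3 : 0 ≤ ∫ s in (1 - κ)..1, DD w0 w1 u m a s := by
    apply intervalIntegral.integral_nonneg_of_ae_restrict (by linarith)
    have hne : ∀ᵐ s : ℝ ∂(volume.restrict (Set.Icc (1 - κ) 1)), s ≠ 1 := by
      apply ae_restrict_of_ae
      rw [ae_iff]
      simp
    filter_upwards [hne, ae_restrict_mem measurableSet_Icc] with s hs1 hs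
    exact DD_three hu0 hu1 hw0 hw1 hsum hm0 hm1 ha0 ha2 (by linarith [hs.1])
      (lt_of_le_of_ne hs.2 hs1)
  have hfin : 0 < -2 * (a / u ^ 2) + κ / 2 * Real.log (b0 / κ) := by
    have e1 : b0 / κ = Real.exp E := by
      rw [hb0, hκ, ha, Real.exp_neg]
      field_simp
    rw [e1, Real.log_exp, hκ, hE]
    have e2 : (1 - m) * a * u ^ 2 / 4 / 2 * (17 / ((1 - m) * u ^ 4)) = a / u ^ 2 * (17 / 8) := by
      field_simp
      ring
    rw [e2]
    have : 0 < a / u ^ 2 := by positivity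
    linarith
  have hmain : 0 < ∫ s in (0 : ℝ)..1, DD w0 w1 u m a s := by
    rw [hsplit]
    linarith
  unfold DD at hmain
  rw [intervalIntegral.integral_sub hi3 hi2] at hmain
  linarith

end Pool.Agent.TH590.FF
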